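import Mathlib
import Pool.Agent.H38.LR.S8.Helper601.Mertens

set_option autoImplicit false

namespace Pool.Agent.H305R2

open Finset Filter Topology
open Pool.Agent.Helper601.Mertens

/-- Second Mertens theorem, with convergence: `∑_{p ≤ N} 1/p - log log N` has a limit. -/
theorem mertens_inv_tendsto : ∃ M : ℝ, Tendsto
    (fun N : ℕ => ∑ p ∈ (Finset.Icc 1 N).filter Nat.Prime, (1 : ℝ) / p - Real.log (Real.log N))
    atTop (𝓝 M) := by
  obtain ⟨C, hC⟩ := mertens_log
  have hC0 : 0 ≤ C := (abs_nonneg _).trans (hC 1 le_rfl)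
  have hl2 : (0 : ℝ) < Real.log 2 := by have := Real.log_two_gt_d9; linarith
  have hs : Summable (fun n : ℕ => 1 / (n : ℝ) ^ 2) := Real.summable_one_div_nat_pow.2 (by norm_num)
  have hlogpos : ∀ n : ℕ, 2 ≤ n → 0 < Real.log n := fun n hn =>
    Real.log_pos (by exact_mod_cast (by omega : 1 < n))
  have hloglo : ∀ n : ℕ, 2 ≤ n → Real.log 2 ≤ Real.log n := fun n hn =>
    Real.log_le_log (by norm_num) (by exact_mod_cast hn)
  have hA : ∀ n : ℕ, 2 ≤ n → |AA n - Real.log n| ≤ C := fun n hn => hC n (by omega)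
  set d : ℕ → ℝ := fun n => 1 / Real.log n - 1 / Real.log ((n + 1 : ℕ) : ℝ) with hd
  have hd0 : ∀ n : ℕ, 2 ≤ n → 0 ≤ d n := by
    intro n hn
    have h1 := hlogpos n hn
    have h2 : Real.log n ≤ Real.log ((n + 1 : ℕ) : ℝ) :=
      Real.log_le_log (by exact_mod_cast (by omega : 0 < n)) (by exact_mod_cast Nat.le_succ n)
    have := one_div_le_one_div_of_le h1 h2
    simp only [hd]; linarith
  -- telescoping
  have hdsum : ∀ N : ℕ, ∑ i ∈ Finset.range N, d (i + 2) ≤ 1 / Real.log 2 := by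
    intro N
    have h2 : ∑ i ∈ Finset.range N, d (i + 2) =
        ∑ i ∈ Finset.range N, ((fun n : ℕ => -(1 / Real.log ((n + 2 : ℕ) : ℝ))) (i + 1) -
          (fun n : ℕ => -(1 / Real.log ((n + 2 : ℕ) : ℝ))) i) := by
      refine Finset.sum_congr rfl fun n _ => ?_
      simp only [hd]
      have : ((n + 1 + 2 : ℕ) : ℝ) = ((n + 2 + 1 : ℕ) : ℝ) := by push_cast; ring
      rw [this]; ring
    rw [h2, Finset.sum_range_sub (fun n : ℕ => -(1 / Real.log ((n + 2 : ℕ) : ℝ))) N]
    have : 0 < 1 / Real.log ((N + 2 : ℕ) : ℝ) := by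
      have := hlogpos (N + 2) (by omega)
      positivity
    simp only [Nat.zero_add]
    push_cast at this ⊢
    linarith
  have hdsummable : Summable (fun i : ℕ => d (i + 2)) :=
    summable_of_sum_range_le (fun i => hd0 _ (by omega)) hdsum
  have hmain : ∀ n : ℕ, 2 ≤ n →
      |Real.log n * d n - (Real.log (Real.log ((n + 1 : ℕ) : ℝ)) - Real.log (Real.log n))| ≤
        (1 / (n : ℝ) ^ 2) / Real.log 2 ^ 2 := by
    intro n hn
    have hy := hlogpos n hn
    have hx := hlogpos (n + 1) (by omega)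
    set y := Real.log (n : ℝ) with hy'
    set x := Real.log ((n + 1 : ℕ) : ℝ) with hx'
    have hyx : y ≤ x := Real.log_le_log (by exact_mod_cast (by omega : 0 < n)) (by exact_mod_cast Nat.le_succ n)
    have e1 : y * d n = 1 - y / x := by
      simp only [hd]
      rw [← hy', ← hx']
      field_simp
    have e2 : Real.log x - Real.log y = Real.log (x / y) := by
      rw [Real.log_div hx.ne' hy.ne']
    rw [e1, e2]
    have hn0 : (0 : ℝ) < n := by exact_mod_cast (by omega : 0 < n)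
    have p1 : 1 - y / x ≤ Real.log (x / y) := by
      have := Real.one_sub_inv_le_log_of_pos (div_pos hx hy)
      rw [inv_div] at this
      exact this
    have h1 := Real.log_le_sub_one_of_pos (div_pos hx hy)
    have h2 : x - y ≤ 1 / n := by
      have : x - y = Real.log (((n + 1 : ℕ) : ℝ) / n) := by
        rw [Real.log_div (by positivity) hn0.ne']
      rw [this]
      have h3 := Real.log_le_sub_one_of_pos (div_pos (by positivity : (0 : ℝ) < ((n + 1 : ℕ) : ℝ)) hn0)
      have h4 : ((n + 1 : ℕ) : ℝ) / n - 1 = 1 / n := by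
        push_cast; field_simp; ring
      linarith
    have h3 : x / y - 1 - (1 - y / x) = (x - y) ^ 2 / (x * y) := by
      field_simp
    have h4 : (x - y) ^ 2 / (x * y) ≤ (1 / (n : ℝ) ^ 2) / Real.log 2 ^ 2 := by
      have h5 : (x - y) ^ 2 ≤ 1 / (n : ℝ) ^ 2 := by
        have : (x - y) ^ 2 ≤ (1 / (n : ℝ)) ^ 2 := pow_le_pow_left₀ (by linarith) h2 2
        rw [div_pow, one_pow] at this; exact this
      have h6 : Real.log 2 ^ 2 ≤ x * y := by
        have := hloglo n hn
        have : Real.log 2 ≤ x := (hloglo n hn).trans hyx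
        nlinarith
      exact div_le_div₀ (by positivity) h5 (by positivity) h6
    rw [abs_le]
    constructor
    · linarith
    · have : 0 ≤ (1 / (n : ℝ) ^ 2) / Real.log 2 ^ 2 := by positivity
      linarith
  -- the two summable pieces
  have hu1 : Summable (fun i : ℕ => (AA (i + 2) - Real.log ((i + 2 : ℕ) : ℝ)) * d (i + 2)) := by
    refine Summable.of_norm_bounded (hdsummable.mul_left C) fun i => ?_
    rw [norm_mul, Real.norm_eq_abs, Real.norm_of_nonneg (hd0 _ (by omega))]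
    exact mul_le_mul_of_nonneg_right (hA _ (by omega)) (hd0 _ (by omega))
  have hu2 : Summable (fun i : ℕ => Real.log ((i + 2 : ℕ) : ℝ) * d (i + 2) -
      (Real.log (Real.log ((i + 2 + 1 : ℕ) : ℝ)) - Real.log (Real.log ((i + 2 : ℕ) : ℝ)))) := by
    have hs2 : Summable (fun i : ℕ => (1 / ((i + 2 : ℕ) : ℝ) ^ 2) / Real.log 2 ^ 2) :=
      ((summable_nat_add_iff 2).2 hs).div_const _
    refine Summable.of_norm_bounded hs2 fun i => ?_
    rw [Real.norm_eq_abs]
    exact hmain (i + 2) (by omega)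
  have ht1 := hu1.hasSum.tendsto_sum_nat
  have ht2 := hu2.hasSum.tendsto_sum_nat
  set M1 := ∑' i : ℕ, (AA (i + 2) - Real.log ((i + 2 : ℕ) : ℝ)) * d (i + 2)
  set M2 := ∑' i : ℕ, (Real.log ((i + 2 : ℕ) : ℝ) * d (i + 2) -
      (Real.log (Real.log ((i + 2 + 1 : ℕ) : ℝ)) - Real.log (Real.log ((i + 2 : ℕ) : ℝ))))
  have ht3 : Tendsto (fun N : ℕ => AA (N + 2) / Real.log ((N + 2 : ℕ) : ℝ)) atTop (𝓝 1) := by
    have h1 : Tendsto (fun N : ℕ => Real.log ((N + 2 : ℕ) : ℝ)) atTop atTop := by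
      have : Tendsto (fun N : ℕ => ((N + 2 : ℕ) : ℝ)) atTop atTop :=
        tendsto_natCast_atTop_atTop.comp (tendsto_add_atTop_nat 2)
      exact Real.tendsto_log_atTop.comp this
    have h2 : Tendsto (fun N : ℕ => C / Real.log ((N + 2 : ℕ) : ℝ)) atTop (𝓝 0) :=
      h1.const_div_atTop C
    rw [tendsto_iff_norm_sub_tendsto_zero]
    refine squeeze_zero (fun _ => norm_nonneg _) (fun N => ?_) h2
    have hp := hlogpos (N + 2) (by omega)
    have e : AA (N + 2) / Real.log ((N + 2 : ℕ) : ℝ) - 1 =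
        (AA (N + 2) - Real.log ((N + 2 : ℕ) : ℝ)) / Real.log ((N + 2 : ℕ) : ℝ) := by
      field_simp
    rw [e, norm_div, Real.norm_eq_abs, Real.norm_of_nonneg hp.le]
    exact div_le_div_of_nonneg_right (hA _ (by omega)) hp.le
  refine ⟨1 + M1 + M2 - Real.log (Real.log 2), ?_⟩
  rw [← tendsto_add_atTop_iff_nat 2]
  have ht := ((ht3.add ht1).add ht2).sub_const (Real.log (Real.log 2))
  refine ht.congr fun N => ?_
  have e := inv_eq (N + 2) (by omega)
  change _ = ∑ p ∈ PP (N + 2), (1 : ℝ) / p - _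
  rw [e]
  have hIco : ∑ n ∈ Finset.Ico 2 (N + 2), AA n * (1 / Real.log n - 1 / Real.log ((n + 1 : ℕ) : ℝ)) =
      ∑ i ∈ Finset.range N, AA (i + 2) * d (i + 2) := by
    rw [Finset.sum_Ico_eq_sum_range]
    simp only [Nat.add_sub_cancel]
    refine Finset.sum_congr rfl fun i _ => ?_
    rw [add_comm 2 i]
  rw [hIco]
  have htel : ∑ i ∈ Finset.range N, (Real.log (Real.log ((i + 2 + 1 : ℕ) : ℝ)) -
      Real.log (Real.log ((i + 2 : ℕ) : ℝ))) =
      Real.log (Real.log ((N + 2 : ℕ) : ℝ)) - Real.log (Real.log 2) := by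
    have := Finset.sum_range_sub (fun n : ℕ => Real.log (Real.log ((n + 2 : ℕ) : ℝ))) N
    have h2 : ∑ i ∈ Finset.range N, (Real.log (Real.log ((i + 2 + 1 : ℕ) : ℝ)) -
      Real.log (Real.log ((i + 2 : ℕ) : ℝ))) = ∑ i ∈ Finset.range N,
        ((fun n : ℕ => Real.log (Real.log ((n + 2 : ℕ) : ℝ))) (i + 1) -
        (fun n : ℕ => Real.log (Real.log ((n + 2 : ℕ) : ℝ))) i) := by
      refine Finset.sum_congr rfl fun n _ => ?_
      have : ((n + 1 + 2 : ℕ) : ℝ) = ((n + 2 + 1 : ℕ) : ℝ) := by push_cast; ring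
      simp only [this]
    rw [h2, this]
    norm_num
  rw [Finset.sum_sub_distrib, htel]
  have : ∑ i ∈ Finset.range N, AA (i + 2) * d (i + 2) =
      ∑ i ∈ Finset.range N, (AA (i + 2) - Real.log ((i + 2 : ℕ) : ℝ)) * d (i + 2) +
      ∑ i ∈ Finset.range N, Real.log ((i + 2 : ℕ) : ℝ) * d (i + 2) := by
    rw [← Finset.sum_add_distrib]
    refine Finset.sum_congr rfl fun i _ => ?_
    ring
  rw [this]
  ring

end Pool.Agent.H305R2
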