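import Mathlib
import Pool.Agent.H38.LR.S8.H305R2.MertensC

set_option autoImplicit false

namespace Pool.Agent.H305R2

open Finset Filter Topology MeasureTheory Set

lemma tendsto_integral_zero {M : ℝ} (hM : Tendsto (fun v : ℝ => HH v - Real.log v) atTop (𝓝 M)) :
    Tendsto (fun d : ℝ => ∫ w in Ioi (0 : ℝ), Real.exp (-w) * (HH (w / d) - Real.log (w / d) - M))
      (𝓝[>] 0) (𝓝 0) := by
  obtain ⟨C, hC0, hC⟩ := HH_bound hM
  have h := tendsto_integral_filter_of_dominated_convergence (μ := volume.restrict (Ioi (0 : ℝ)))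
    (l := 𝓝[>] (0 : ℝ))
    (F := fun (d : ℝ) (w : ℝ) => Real.exp (-w) * (HH (w / d) - Real.log (w / d) - M))
    (f := fun _ => (0 : ℝ))
    (fun w : ℝ => Real.exp (-w) * (C + max 0 (-Real.log w))) ?_ ?_ (integrable_bound C) ?_
  · simpa using h
  · filter_upwards with d
    refine Measurable.aestronglyMeasurable ?_
    have h1 : Measurable HH := HH_mono.measurable
    fun_prop
  · have h1 : ∀ᶠ d : ℝ in 𝓝[>] 0, d ≤ 1 :=
      (eventually_le_nhds (show (0 : ℝ) < 1 by norm_num)).filter_mono nhdsWithin_le_nhds
    filter_upwards [self_mem_nhdsWithin, h1] with d hd hd1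
    have hd : 0 < d := hd
    rw [ae_restrict_iff' measurableSet_Ioi]
    refine Eventually.of_forall fun w hw => ?_
    have hw : 0 < w := hw
    rw [norm_mul, Real.norm_of_nonneg (Real.exp_pos _).le, Real.norm_eq_abs]
    refine mul_le_mul_of_nonneg_left ((hC (w / d) (by positivity)).trans ?_) (Real.exp_pos _).le
    have : -Real.log (w / d) ≤ -Real.log w := by
      rw [neg_le_neg_iff]
      apply Real.log_le_log hw
      rw [le_div_iff₀ hd]
      nlinarith
    have := max_le_max (le_refl (0 : ℝ)) this
    linarith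
  · rw [ae_restrict_iff' measurableSet_Ioi]
    refine Eventually.of_forall fun w hw => ?_
    have hw : 0 < w := hw
    have h1 : Tendsto (fun d : ℝ => w / d) (𝓝[>] 0) atTop := by
      have := (tendsto_inv_nhdsGT_zero (𝕜 := ℝ)).const_mul_atTop hw
      refine this.congr fun d => ?_
      rw [div_eq_mul_inv]
    have h2 := (hM.comp h1).sub_const M
    rw [sub_self] at h2
    have h3 := h2.const_mul (Real.exp (-w))
    rw [mul_zero] at h3
    exact h3

lemma integrable_main {M : ℝ} (hM : Tendsto (fun v : ℝ => HH v - Real.log v) atTop (𝓝 M)) {d : ℝ}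
    (hd : 0 < d) (hd1 : d ≤ 1) :
    IntegrableOn (fun w => Real.exp (-w) * (HH (w / d) - Real.log (w / d) - M)) (Ioi (0 : ℝ)) := by
  obtain ⟨C, hC0, hC⟩ := HH_bound hM
  refine Integrable.mono' (integrable_bound C) ?_ ?_
  · refine Measurable.aestronglyMeasurable ?_
    have h1 : Measurable HH := HH_mono.measurable
    fun_prop
  · rw [ae_restrict_iff' measurableSet_Ioi]
    refine Eventually.of_forall fun w hw => ?_
    have hw : 0 < w := hw
    rw [norm_mul, Real.norm_of_nonneg (Real.exp_pos _).le, Real.norm_eq_abs]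
    refine mul_le_mul_of_nonneg_left ((hC (w / d) (by positivity)).trans ?_) (Real.exp_pos _).le
    have : -Real.log (w / d) ≤ -Real.log w := by
      rw [neg_le_neg_iff]
      apply Real.log_le_log hw
      rw [le_div_iff₀ hd]
      nlinarith
    have := max_le_max (le_refl (0 : ℝ)) this
    linarith

lemma integral_log_exp : IntegrableOn (fun w : ℝ => Real.exp (-w) * Real.log w) (Ioi 0) ∧
    ∫ w in Ioi (0 : ℝ), Real.exp (-w) * Real.log w = - Real.eulerMascheroniConstant := by
  have hint : IntegrableOn (fun w : ℝ => Real.exp (-w) * Real.log w) (Ioi 0) := by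
    have h1 := Real.GammaIntegral_convergent (s := 2) (by norm_num)
    have h2 := integrable_bound 0
    have h3 : IntegrableOn (fun w : ℝ => Real.exp (-w) * (0 + max 0 (-Real.log w)) +
      Real.exp (-w) * w ^ ((2 : ℝ) - 1)) (Ioi 0) := h2.add h1
    refine Integrable.mono' h3 ?_ ?_
    · refine Measurable.aestronglyMeasurable ?_
      fun_prop
    · rw [ae_restrict_iff' measurableSet_Ioi]
      refine Eventually.of_forall fun w hw => ?_
      have hw : 0 < w := hw
      rw [norm_mul, Real.norm_of_nonneg (Real.exp_pos _).le, Real.norm_eq_abs, ← mul_add]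
      refine mul_le_mul_of_nonneg_left ?_ (Real.exp_pos _).le
      have e : w ^ ((2 : ℝ) - 1) = w := by norm_num
      rw [e]
      have h4 := Real.log_le_sub_one_of_pos hw
      have h5 := le_max_left 0 (-Real.log w)
      have h6 := le_max_right 0 (-Real.log w)
      rw [abs_le]
      constructor
      · linarith
      · linarith
  refine ⟨hint, ?_⟩
  have h1 := Complex.hasDerivAt_GammaIntegral (s := 1) (by norm_num)
  have h2 := Complex.hasDerivAt_Gamma_one
  have h3 : HasDerivAt Complex.Gamma (∫ t : ℝ in Ioi 0, (t : ℂ) ^ ((1 : ℂ) - 1) * (Real.log t * Real.exp (-t))) 1 := by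
    refine h1.congr_of_eventuallyEq ?_
    have : ∀ᶠ z : ℂ in 𝓝 1, 0 < z.re := by
      have := (Complex.continuous_re.isOpen_preimage _ isOpen_Ioi).mem_nhds
        (show (1 : ℂ) ∈ Complex.re ⁻¹' (Ioi 0) by simp)
      exact this
    filter_upwards [this] with z hz
    exact Complex.Gamma_eq_integral hz
  have h4 := h3.unique h2
  have h5 : (∫ t : ℝ in Ioi 0, (t : ℂ) ^ ((1 : ℂ) - 1) * (Real.log t * Real.exp (-t))) =
      ((∫ w in Ioi (0 : ℝ), Real.exp (-w) * Real.log w : ℝ) : ℂ) := by
    rw [← integral_complex_ofReal]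
    refine integral_congr_ae (Eventually.of_forall fun t => ?_)
    simp only [sub_self, Complex.cpow_zero, one_mul]
    push_cast
    ring
  rw [h5] at h4
  exact_mod_cast h4

/-- `Z(d) = ∑ p^{-1-d}` as an integral. -/
lemma Z_eq {d : ℝ} (hd : 0 < d) :
    HasSum (fun n : ℕ => fp n * (n : ℝ) ^ (-d)) (∫ w in Ioi (0 : ℝ), Real.exp (-w) * HH (w / d)) := by
  set F : ℕ → ℝ → ℝ := fun n w => fp n * (Ioi (d * Real.log n)).indicator (fun w => Real.exp (-w)) w
    with hF
  have hlog : ∀ n : ℕ, 0 ≤ d * Real.log n := fun n => mul_nonneg hd.le (Real.log_natCast_nonneg n)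
  have hF0 : ∀ n w, 0 ≤ F n w := by
    intro n w
    simp only [hF]
    exact mul_nonneg (fp_nonneg n) (indicator_nonneg (fun _ _ => (Real.exp_pos _).le) _)
  have hint : ∀ n, Integrable (F n) (volume.restrict (Ioi 0)) := by
    intro n
    simp only [hF]
    refine Integrable.const_mul ?_ _
    refine Integrable.indicator ?_ measurableSet_Ioi
    have := integrableOn_exp_neg_Ioi 0
    exact this
  have hval : ∀ n : ℕ, ∫ w in Ioi (0 : ℝ), F n w = fp n * (n : ℝ) ^ (-d) := by
    intro n
    simp only [hF]
    rw [integral_const_mul, setIntegral_indicator measurableSet_Ioi]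
    by_cases hn : n.Prime
    · have hn0 : (0 : ℝ) < n := by exact_mod_cast hn.pos
      have e : Ioi (0 : ℝ) ∩ Ioi (d * Real.log n) = Ioi (d * Real.log n) := by
        rw [inter_eq_right]
        intro x hx
        exact lt_of_le_of_lt (hlog n) hx
      rw [e, integral_exp_neg_Ioi, Real.rpow_def_of_pos hn0]
      congr 2
      ring
    · simp [fp, hn]
  have hsummable : Summable (fun n : ℕ => fp n * (n : ℝ) ^ (-d)) := by
    have h1 : Summable (fun n : ℕ => 1 / (n : ℝ) ^ (1 + d)) :=
      Real.summable_one_div_nat_rpow.2 (by linarith)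
    refine Summable.of_nonneg_of_le (fun n => mul_nonneg (fp_nonneg n) (by positivity)) (fun n => ?_) h1
    unfold fp
    split_ifs with hn
    · have hn0 : (0 : ℝ) < n := by exact_mod_cast hn.pos
      rw [Real.rpow_add hn0, Real.rpow_one, Real.rpow_neg hn0.le]
      apply le_of_eq
      field_simp
    · rw [zero_mul]; positivity
  have hsumnorm : Summable (fun n => ∫ w in Ioi (0 : ℝ), ‖F n w‖) := by
    refine hsummable.congr fun n => ?_
    rw [← hval n]
    refine integral_congr_ae (Eventually.of_forall fun w => ?_)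
    simp only
    rw [Real.norm_of_nonneg (hF0 n w)]
  have h := hasSum_integral_of_summable_integral_norm hint hsumnorm
  have h2 : (∫ w in Ioi (0 : ℝ), ∑' n, F n w) = ∫ w in Ioi (0 : ℝ), Real.exp (-w) * HH (w / d) := by
    refine integral_congr_ae (Eventually.of_forall fun w => ?_)
    simp only
    have hz : ∀ n ∉ Finset.range ⌈Real.exp (w / d)⌉₊, F n w = 0 := by
      intro n hn
      rw [Finset.mem_range, Nat.lt_ceil, not_lt] at hn
      simp only [hF]
      have hn0 : (0 : ℝ) < n := lt_of_lt_of_le (Real.exp_pos _) hn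
      have hl : w / d ≤ Real.log n := by
        rw [← Real.log_exp (w / d)]
        exact Real.log_le_log (Real.exp_pos _) hn
      rw [div_le_iff₀ hd] at hl
      rw [indicator_of_notMem]
      · ring
      · simp only [Set.mem_Ioi, not_lt]
        linarith
    rw [tsum_eq_sum hz]
    unfold HH
    rw [Finset.mul_sum]
    refine Finset.sum_congr rfl fun n hn => ?_
    rw [Finset.mem_range, Nat.lt_ceil] at hn
    simp only [hF]
    by_cases hp : n.Prime
    · have hn0 : (0 : ℝ) < n := by exact_mod_cast hp.pos
      have hl : Real.log n < w / d := by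
        rw [← Real.log_exp (w / d)]
        exact Real.log_lt_log hn0 hn
      rw [lt_div_iff₀ hd] at hl
      rw [indicator_of_mem]
      · ring
      · simp only [Set.mem_Ioi]
        linarith
    · simp [fp, hp]
  rw [← h2]
  refine h.congr_fun ?_ |> fun h => h
  intro n
  exact (hval n).symm

end Pool.Agent.H305R2
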