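import Mathlib
import Pool.Agent.H38.LR.S8.Helper601.PNT

set_option autoImplicit false

namespace Pool.Agent.H305R2

open Finset Filter Topology MeasureTheory Set

/-- indicator of the primes -/
noncomputable def pr (n : ℕ) : ℝ := if n.Prime then 1 else 0

lemma pr_nonneg (n : ℕ) : 0 ≤ pr n := by unfold pr; split_ifs <;> norm_num

lemma sum_pr (n : ℕ) : ∑ k ∈ Finset.Icc 0 n, pr k = Nat.primeCounting n := by
  unfold pr
  rw [Finset.sum_boole, Nat.primeCounting, Nat.primeCounting', Nat.count_eq_card_filter_range]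
  congr 2
  ext x
  simp only [Finset.mem_filter, Finset.mem_Icc, Finset.mem_range]
  constructor
  · rintro ⟨h1, h2⟩; exact ⟨by omega, h2⟩
  · rintro ⟨h1, h2⟩; exact ⟨by omega, h2⟩

/-- sum of reciprocals of the primes in `(z, e z]` -/
noncomputable def RR (z : ℝ) : ℝ := ∑ k ∈ Finset.Ioc ⌊z⌋₊ ⌊Real.exp 1 * z⌋₊, (k : ℝ)⁻¹ * pr k

lemma RR_nonneg (z : ℝ) : 0 ≤ RR z :=
  Finset.sum_nonneg fun k _ => mul_nonneg (by positivity) (pr_nonneg k)

/-- the normalised prime counting function -/
noncomputable def PI (t : ℝ) : ℝ := (Nat.primeCounting ⌊t⌋₊ : ℝ)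

lemma PI_nonneg (t : ℝ) : 0 ≤ PI t := by unfold PI; positivity

lemma PI_mono : Monotone PI := by
  intro a b h
  unfold PI
  exact_mod_cast Nat.monotone_primeCounting (Nat.floor_mono h)

lemma RR_eq {z : ℝ} (hz : 0 < z) : RR z = PI (Real.exp 1 * z) / (Real.exp 1 * z) - PI z / z +
    ∫ t in Ioc z (Real.exp 1 * z), PI t / t ^ 2 := by
  have he : 1 ≤ Real.exp 1 := by have := Real.add_one_le_exp (1 : ℝ); linarith
  have hze : z ≤ Real.exp 1 * z := by nlinarith
  have hd : ∀ t ∈ Set.Icc z (Real.exp 1 * z), DifferentiableAt ℝ (fun x : ℝ => x⁻¹) t := by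
    intro t ht
    exact differentiableAt_inv (by linarith [ht.1] : t ≠ 0)
  have hint : IntegrableOn (deriv (fun x : ℝ => x⁻¹)) (Set.Icc z (Real.exp 1 * z)) := by
    refine ContinuousOn.integrableOn_Icc ?_
    rw [show deriv (fun x : ℝ => x⁻¹) = fun x => -(x ^ 2)⁻¹ from by ext x; simp]
    refine ContinuousOn.neg (ContinuousOn.inv₀ (by fun_prop) ?_)
    intro x hx
    have : 0 < x := by linarith [hx.1]
    positivity
  have h := sum_mul_eq_sub_sub_integral_mul pr hz.le hze hd hint
  unfold RR
  rw [h, sum_pr, sum_pr]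
  unfold PI
  have e : ∫ t in Ioc z (Real.exp 1 * z), deriv (fun x : ℝ => x⁻¹) t * ∑ k ∈ Finset.Icc 0 ⌊t⌋₊, pr k =
      - ∫ t in Ioc z (Real.exp 1 * z), (Nat.primeCounting ⌊t⌋₊ : ℝ) / t ^ 2 := by
    rw [← integral_neg]
    refine setIntegral_congr_fun measurableSet_Ioc fun t ht => ?_
    rw [sum_pr]
    simp
    ring
  rw [e]
  ring

lemma integrableOn_PI {z : ℝ} (hz : 0 < z) : IntegrableOn (fun t => PI t / t ^ 2) (Ioc z (Real.exp 1 * z)) := by
  have h1 : IntegrableOn (fun t : ℝ => PI t * (t ^ 2)⁻¹) (Set.Icc z (Real.exp 1 * z)) := by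
    refine IntegrableOn.mul_continuousOn ?_ ?_ isCompact_Icc
    · exact (PI_mono.monotoneOn _).integrableOn_isCompact isCompact_Icc
    · refine ContinuousOn.inv₀ (by fun_prop) ?_
      intro x hx
      have : 0 < x := by linarith [hx.1]
      positivity
  exact (h1.mono_set Ioc_subset_Icc_self).congr_fun (fun t _ => by simp only [div_eq_mul_inv]) measurableSet_Ioc

lemma integral_inv_Ioc {z : ℝ} (hz : 0 < z) : ∫ t in Ioc z (Real.exp 1 * z), t⁻¹ = 1 := by
  have he : 1 ≤ Real.exp 1 := by have := Real.add_one_le_exp (1 : ℝ); linarith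
  have hze : z ≤ Real.exp 1 * z := by nlinarith
  rw [← intervalIntegral.integral_of_le hze, integral_inv_of_pos hz (by positivity)]
  rw [mul_div_assoc, div_self hz.ne', mul_one, Real.log_exp]

/-- Prime number theorem for the reciprocals of primes in `(z, ez]`. -/
theorem RR_tendsto : Tendsto (fun z : ℝ => RR z * Real.log z) atTop (𝓝 1) := by
  have hpnt : Tendsto (fun x : ℝ => PI x * Real.log x / x) atTop (𝓝 1) :=
    Pool.Agent.Helper601.PNT.pi_tendsto
  have he1 : 1 < Real.exp 1 := by have := Real.add_one_lt_exp (one_ne_zero (α := ℝ)); linarith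
  have he0 : 0 < Real.exp 1 := Real.exp_pos 1
  have hez : Tendsto (fun z : ℝ => Real.exp 1 * z) atTop atTop := tendsto_id.const_mul_atTop he0
  have hlogr : Tendsto (fun z : ℝ => Real.log z / Real.log (Real.exp 1 * z)) atTop (𝓝 1) := by
    have h1 : Tendsto (fun z : ℝ => 1 / Real.log (Real.exp 1 * z)) atTop (𝓝 0) :=
      (Real.tendsto_log_atTop.comp hez).const_div_atTop 1
    have h2 := h1.const_sub 1
    rw [sub_zero] at h2
    refine h2.congr' ?_
    filter_upwards [eventually_gt_atTop 1] with z hz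
    have hz0 : 0 < z := by linarith
    have hl : Real.log (Real.exp 1 * z) = 1 + Real.log z := by
      rw [Real.log_mul he0.ne' hz0.ne', Real.log_exp]
    have hlz : 0 < Real.log z := Real.log_pos hz
    rw [hl]
    field_simp
    ring
  have hA : Tendsto (fun z : ℝ => PI (Real.exp 1 * z) / (Real.exp 1 * z) * Real.log z) atTop (𝓝 1) := by
    have h1 := (hpnt.comp hez).mul hlogr
    rw [mul_one] at h1
    refine h1.congr' ?_
    filter_upwards [eventually_gt_atTop 1] with z hz
    have hz0 : 0 < z := by linarith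
    have hlz : 0 < Real.log (Real.exp 1 * z) := Real.log_pos (by nlinarith)
    simp only [Function.comp]
    field_simp
  have hB : Tendsto (fun z : ℝ => PI z / z * Real.log z) atTop (𝓝 1) := by
    refine hpnt.congr fun z => ?_
    ring
  have hC : Tendsto (fun z : ℝ => (∫ t in Ioc z (Real.exp 1 * z), PI t / t ^ 2) * Real.log z) atTop (𝓝 1) := by
    rw [Metric.tendsto_atTop]
    intro ε hε
    have hh : ∀ᶠ t : ℝ in atTop, |PI t * Real.log t / t - 1| < ε / 2 := by
      have := (Metric.tendsto_nhds.1 hpnt) (ε / 2) (by positivity)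
      filter_upwards [this] with v hv
      rwa [Real.dist_eq] at hv
    obtain ⟨T, hT⟩ := hh.exists_forall_of_atTop
    have hl2 : ∀ᶠ z : ℝ in atTop, |(1 - ε / 2) * (Real.log z / Real.log (Real.exp 1 * z)) - (1 - ε / 2)| < ε / 2 := by
      have h1 := hlogr.const_mul (1 - ε / 2)
      rw [mul_one] at h1
      have := (Metric.tendsto_nhds.1 h1) (ε / 2) (by positivity)
      filter_upwards [this] with v hv
      rwa [Real.dist_eq] at hv
    obtain ⟨T2, hT2⟩ := hl2.exists_forall_of_atTop
    refine ⟨max (max T T2) 2, fun z hz => ?_⟩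
    have hzT : T ≤ z := (le_max_left _ _).trans ((le_max_left _ _).trans hz)
    have hzT2 : T2 ≤ z := (le_max_right _ _).trans ((le_max_left _ _).trans hz)
    have hz2 : 2 ≤ z := (le_max_right _ _).trans hz
    have hz0 : 0 < z := by linarith
    have hlz : 0 < Real.log z := Real.log_pos (by linarith)
    have hlez : 0 < Real.log (Real.exp 1 * z) := Real.log_pos (by nlinarith)
    have hint1 : IntegrableOn (fun t : ℝ => t⁻¹) (Ioc z (Real.exp 1 * z)) := by
      have : ContinuousOn (fun t : ℝ => t⁻¹) (Set.Icc z (Real.exp 1 * z)) := by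
        refine ContinuousOn.inv₀ continuousOn_id ?_
        intro x hx
        have : 0 < x := by linarith [hx.1]
        exact this.ne'
      exact this.integrableOn_Icc.mono_set Ioc_subset_Icc_self
    have hpt : ∀ t ∈ Ioc z (Real.exp 1 * z), (1 - ε / 2) * (Real.log (Real.exp 1 * z))⁻¹ * t⁻¹ ≤ PI t / t ^ 2 ∧
        PI t / t ^ 2 ≤ (1 + ε / 2) * (Real.log z)⁻¹ * t⁻¹ := by
      intro t ht
      have ht0 : 0 < t := by linarith [ht.1]
      have hlt : 0 < Real.log t := Real.log_pos (by linarith [ht.1])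
      have h1 := abs_lt.1 (hT t (by linarith [ht.1]))
      have h2 : Real.log z ≤ Real.log t := Real.log_le_log hz0 ht.1.le
      have h3 : Real.log t ≤ Real.log (Real.exp 1 * z) := Real.log_le_log ht0 ht.2
      have e : PI t / t ^ 2 = (PI t * Real.log t / t) * (Real.log t)⁻¹ * t⁻¹ := by
        field_simp
      rw [e]
      constructor
      · refine mul_le_mul_of_nonneg_right ?_ (by positivity)
        rcases le_or_gt 0 (1 - ε / 2) with h4 | h4
        · exact mul_le_mul (by linarith [h1.1]) (inv_anti₀ hlt h3) (by positivity) (by linarith [h1.1])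
        · have : 0 ≤ PI t * Real.log t / t := div_nonneg (mul_nonneg (PI_nonneg t) hlt.le) ht0.le
          have h5 : (1 - ε / 2) * (Real.log (Real.exp 1 * z))⁻¹ ≤ 0 :=
            mul_nonpos_of_nonpos_of_nonneg h4.le (by positivity)
          have h6 : 0 ≤ PI t * Real.log t / t * (Real.log t)⁻¹ := by positivity
          linarith
      · refine mul_le_mul_of_nonneg_right ?_ (by positivity)
        exact mul_le_mul (by linarith [h1.2]) (inv_anti₀ hlz h2) (by positivity) (by linarith)
    have hlow : (1 - ε / 2) * (Real.log (Real.exp 1 * z))⁻¹ ≤ ∫ t in Ioc z (Real.exp 1 * z), PI t / t ^ 2 := by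
      have := setIntegral_mono_on (hint1.const_mul ((1 - ε / 2) * (Real.log (Real.exp 1 * z))⁻¹))
        (integrableOn_PI hz0) measurableSet_Ioc fun t ht => (hpt t ht).1
      rw [integral_const_mul, integral_inv_Ioc hz0, mul_one] at this
      exact this
    have hup : ∫ t in Ioc z (Real.exp 1 * z), PI t / t ^ 2 ≤ (1 + ε / 2) * (Real.log z)⁻¹ := by
      have := setIntegral_mono_on (integrableOn_PI hz0)
        (hint1.const_mul ((1 + ε / 2) * (Real.log z)⁻¹)) measurableSet_Ioc fun t ht => (hpt t ht).2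
      rw [integral_const_mul, integral_inv_Ioc hz0, mul_one] at this
      exact this
    rw [Real.dist_eq, abs_lt]
    have hlow' := mul_le_mul_of_nonneg_right hlow hlz.le
    have hup' := mul_le_mul_of_nonneg_right hup hlz.le
    have e1 : (1 + ε / 2) * (Real.log z)⁻¹ * Real.log z = 1 + ε / 2 := by field_simp
    have e2 : (1 - ε / 2) * (Real.log (Real.exp 1 * z))⁻¹ * Real.log z =
      (1 - ε / 2) * (Real.log z / Real.log (Real.exp 1 * z)) := by field_simp
    have h7 := abs_lt.1 (hT2 z hzT2)
    constructor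
    · linarith [h7.1]
    · linarith
  have hsum := (hA.sub hB).add hC
  have e : (1 : ℝ) - 1 + 1 = 1 := by norm_num
  rw [e] at hsum
  refine hsum.congr' ?_
  filter_upwards [eventually_gt_atTop 0] with z hz
  rw [RR_eq hz]
  ring

end Pool.Agent.H305R2
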