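import Mathlib
import Pool.Agent.H38.LR.S8.H305R2.Rough

set_option autoImplicit false

namespace Pool.Agent.H305R2

open Finset Filter Topology MeasureTheory

/-- the largest integer below `exp t` -/
noncomputable def NN (t : ℝ) : ℕ := ⌈Real.exp t⌉₊ - 1

/-- indicator of the event that the largest integer below `exp t` has prime `p`-rough part -/
noncomputable def ff (p : ℕ) (t : ℝ) : ℝ := if (roughPart p (NN t)).Prime then 1 else 0

lemma measurable_NN : Measurable NN := by
  unfold NN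
  have h1 : Measurable (fun t : ℝ => ⌈Real.exp t⌉₊) := Nat.measurable_ceil.comp Real.measurable_exp
  exact (measurable_from_nat (f := fun n : ℕ => n - 1)).comp h1

lemma measurable_ff (p : ℕ) : Measurable (ff p) := by
  exact (measurable_from_nat (f := fun n : ℕ => if (roughPart p n).Prime then (1 : ℝ) else 0)).comp
    measurable_NN

lemma ff_nonneg (p : ℕ) (t : ℝ) : 0 ≤ ff p t := by unfold ff; split_ifs <;> norm_num

lemma ff_le_one (p : ℕ) (t : ℝ) : ff p t ≤ 1 := by unfold ff; split_ifs <;> norm_num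

lemma integrableOn_ff (p : ℕ) (a b : ℝ) : IntegrableOn (ff p) (Set.Ioc a b) := by
  refine Measure.integrableOn_of_bounded (M := 1) (by simp) (measurable_ff p).aestronglyMeasurable ?_
  refine Eventually.of_forall fun t => ?_
  rw [Real.norm_of_nonneg (ff_nonneg p t)]
  exact ff_le_one p t

lemma mem_Ioc_log {m : ℕ} (hm : 1 ≤ m) {t : ℝ} :
    t ∈ Set.Ioc (Real.log m) (Real.log ((m + 1 : ℕ) : ℝ)) ↔ NN t = m := by
  have hm0 : (0 : ℝ) < m := by exact_mod_cast hm
  have hm1 : (0 : ℝ) < ((m + 1 : ℕ) : ℝ) := by positivity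
  unfold NN
  rw [Set.mem_Ioc, Real.log_lt_iff_lt_exp hm0, Real.le_log_iff_exp_le hm1]
  have h1 : ((m : ℝ) < Real.exp t) ↔ m < ⌈Real.exp t⌉₊ := Nat.lt_ceil.symm
  have h2 : (Real.exp t ≤ ((m + 1 : ℕ) : ℝ)) ↔ ⌈Real.exp t⌉₊ ≤ m + 1 := Nat.ceil_le.symm
  rw [h1, h2]
  omega

/-- the indicator of a set of values of `NN` as a sum of interval indicators -/
lemma ind_eq_sum (F : Finset ℕ) (hF : ∀ m ∈ F, 1 ≤ m) (t : ℝ) :
    (if NN t ∈ F then (1 : ℝ) else 0) =
      ∑ m ∈ F, (Set.Ioc (Real.log m) (Real.log ((m + 1 : ℕ) : ℝ))).indicator (fun _ => (1 : ℝ)) t := by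
  have h : ∀ m ∈ F, (Set.Ioc (Real.log m) (Real.log ((m + 1 : ℕ) : ℝ))).indicator (fun _ => (1 : ℝ)) t =
      if NN t = m then (1 : ℝ) else 0 := by
    intro m hm
    rw [Set.indicator_apply]
    simp only [mem_Ioc_log (hF m hm)]
  rw [Finset.sum_congr rfl h, Finset.sum_ite_eq]

lemma integral_ind (F : Finset ℕ) (hF : ∀ m ∈ F, 1 ≤ m) (y y' : ℝ) :
    ∫ t in Set.Ioc y y', (if NN t ∈ F then (1 : ℝ) else 0) =
      ∑ m ∈ F, ∫ t in Set.Ioc y y',
        (Set.Ioc (Real.log m) (Real.log ((m + 1 : ℕ) : ℝ))).indicator (fun _ => (1 : ℝ)) t := by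
  rw [← integral_finset_sum]
  · exact setIntegral_congr_fun measurableSet_Ioc fun t _ => ind_eq_sum F hF t
  · intro m _
    refine Integrable.indicator ?_ measurableSet_Ioc
    exact integrableOn_const (by simp)

lemma integral_ind_le {m : ℕ} (hm : 1 ≤ m) (y y' : ℝ) :
    ∫ t in Set.Ioc y y',
      (Set.Ioc (Real.log m) (Real.log ((m + 1 : ℕ) : ℝ))).indicator (fun _ => (1 : ℝ)) t ≤ 1 / m := by
  have hm0 : (0 : ℝ) < m := by exact_mod_cast hm
  rw [setIntegral_indicator measurableSet_Ioc, setIntegral_const, smul_eq_mul, mul_one]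
  have h1 : (volume (Set.Ioc y y' ∩ Set.Ioc (Real.log m) (Real.log ((m + 1 : ℕ) : ℝ)))) ≤
      volume (Set.Ioc (Real.log m) (Real.log ((m + 1 : ℕ) : ℝ))) := measure_mono Set.inter_subset_right
  have h2 : volume.real (Set.Ioc y y' ∩ Set.Ioc (Real.log m) (Real.log ((m + 1 : ℕ) : ℝ))) ≤
      volume.real (Set.Ioc (Real.log m) (Real.log ((m + 1 : ℕ) : ℝ))) :=
    ENNReal.toReal_mono (by simp) h1
  refine h2.trans ?_
  rw [Real.volume_real_Ioc]
  refine max_le ?_ (by positivity)
  rw [← Real.log_div (by positivity) hm0.ne']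
  have h3 := Real.log_le_sub_one_of_pos (show (0 : ℝ) < ((m + 1 : ℕ) : ℝ) / m by positivity)
  have h4 : ((m + 1 : ℕ) : ℝ) / m - 1 = 1 / m := by push_cast; field_simp; ring
  linarith

lemma integral_ind_ge {m : ℕ} (hm : 1 ≤ m) {y y' : ℝ} (h1 : y ≤ Real.log m)
    (h2 : Real.log ((m + 1 : ℕ) : ℝ) ≤ y') :
    1 / ((m : ℝ) + 1) ≤ ∫ t in Set.Ioc y y',
      (Set.Ioc (Real.log m) (Real.log ((m + 1 : ℕ) : ℝ))).indicator (fun _ => (1 : ℝ)) t := by
  have hm0 : (0 : ℝ) < m := by exact_mod_cast hm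
  have hle : Real.log m ≤ Real.log ((m + 1 : ℕ) : ℝ) :=
    Real.log_le_log hm0 (by push_cast; linarith)
  have e : Set.Ioc y y' ∩ Set.Ioc (Real.log m) (Real.log ((m + 1 : ℕ) : ℝ)) =
      Set.Ioc (Real.log m) (Real.log ((m + 1 : ℕ) : ℝ)) := by
    rw [Set.inter_eq_right]
    exact Set.Ioc_subset_Ioc h1 h2
  rw [setIntegral_indicator measurableSet_Ioc, e, setIntegral_const, smul_eq_mul, mul_one,
    Real.volume_real_Ioc_of_le hle, ← Real.log_div (by positivity) hm0.ne']
  have h3 := Real.one_sub_inv_le_log_of_pos (show (0 : ℝ) < ((m + 1 : ℕ) : ℝ) / m by positivity)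
  have h4 : 1 - (((m + 1 : ℕ) : ℝ) / m)⁻¹ = 1 / ((m : ℝ) + 1) := by push_cast; field_simp; ring
  linarith

/-- upper bound for window integrals -/
lemma window_upper {p : ℕ} {y y' : ℝ} (hy : 0 ≤ y) :
    ∫ t in Set.Ioc y y', ff p t ≤
      ∑ m ∈ (Finset.Icc ⌊Real.exp y⌋₊ ⌊Real.exp y'⌋₊).filter (fun m => (roughPart p m).Prime),
        1 / (m : ℝ) := by
  set F := (Finset.Icc ⌊Real.exp y⌋₊ ⌊Real.exp y'⌋₊).filter (fun m => (roughPart p m).Prime) with hF
  have hA : 1 ≤ ⌊Real.exp y⌋₊ := Nat.floor_pos.2 (Real.one_le_exp hy)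
  have hF1 : ∀ m ∈ F, 1 ≤ m := by
    intro m hm
    rw [hF, Finset.mem_filter, Finset.mem_Icc] at hm
    omega
  calc ∫ t in Set.Ioc y y', ff p t ≤ ∫ t in Set.Ioc y y', (if NN t ∈ F then (1 : ℝ) else 0) := by
        refine setIntegral_mono_on (integrableOn_ff p y y') ?_ measurableSet_Ioc fun t ht => ?_
        · refine Measure.integrableOn_of_bounded (M := 1) (by simp) ?_ ?_
          · exact ((measurable_from_nat (f := fun n : ℕ => if n ∈ F then (1 : ℝ) else 0)).comp
              measurable_NN).aestronglyMeasurable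
          · refine Eventually.of_forall fun t => ?_
            split_ifs <;> simp
        · unfold ff
          split_ifs with h1 h2
          · exact le_rfl
          · exfalso
            apply h2
            rw [hF, Finset.mem_filter, Finset.mem_Icc]
            refine ⟨⟨?_, ?_⟩, h1⟩
            · have h3 : ⌊Real.exp y⌋₊ < ⌈Real.exp t⌉₊ := by
                rw [Nat.lt_ceil]
                exact lt_of_le_of_lt (Nat.floor_le (Real.exp_pos _).le) (Real.exp_lt_exp.2 ht.1)
              unfold NN; omega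
            · have h3 : ⌈Real.exp t⌉₊ - 1 < ⌈Real.exp t⌉₊ := by
                have : 0 < ⌈Real.exp t⌉₊ := Nat.ceil_pos.2 (Real.exp_pos t)
                omega
              rw [Nat.lt_ceil] at h3
              unfold NN
              rw [Nat.le_floor_iff (Real.exp_pos _).le]
              exact h3.le.trans (Real.exp_le_exp.2 ht.2)
          · norm_num
          · exact le_rfl
    _ = _ := integral_ind F hF1 y y'
    _ ≤ _ := Finset.sum_le_sum fun m hm => integral_ind_le (hF1 m hm) y y'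

/-- lower bound for window integrals -/
lemma window_lower {p : ℕ} {y y' : ℝ} (hy : 0 ≤ y) :
    ∑ m ∈ (Finset.Ioc ⌊Real.exp y⌋₊ (⌊Real.exp y'⌋₊ - 1)).filter (fun m => (roughPart p m).Prime),
        1 / ((m : ℝ) + 1) ≤ ∫ t in Set.Ioc y y', ff p t := by
  set F := (Finset.Ioc ⌊Real.exp y⌋₊ (⌊Real.exp y'⌋₊ - 1)).filter (fun m => (roughPart p m).Prime) with hF
  have hA : 1 ≤ ⌊Real.exp y⌋₊ := Nat.floor_pos.2 (Real.one_le_exp hy)
  have hF1 : ∀ m ∈ F, 1 ≤ m := by
    intro m hm
    rw [hF, Finset.mem_filter, Finset.mem_Ioc] at hm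
    omega
  calc _ ≤ ∑ m ∈ F, ∫ t in Set.Ioc y y',
        (Set.Ioc (Real.log m) (Real.log ((m + 1 : ℕ) : ℝ))).indicator (fun _ => (1 : ℝ)) t := by
        refine Finset.sum_le_sum fun m hm => ?_
        refine integral_ind_ge (hF1 m hm) ?_ ?_
        · rw [hF, Finset.mem_filter, Finset.mem_Ioc] at hm
          have h1 : ⌊Real.exp y⌋₊ < m := hm.1.1
          rw [Nat.floor_lt (Real.exp_pos _).le] at h1
          exact ((Real.lt_log_iff_exp_lt (lt_trans (Real.exp_pos _) h1)).2 h1).le
        · rw [hF, Finset.mem_filter, Finset.mem_Ioc] at hm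
          have h1 : m + 1 ≤ ⌊Real.exp y'⌋₊ := by omega
          rw [Nat.le_floor_iff (Real.exp_pos _).le] at h1
          exact (Real.log_le_iff_le_exp (by positivity)).2 h1
    _ = ∫ t in Set.Ioc y y', (if NN t ∈ F then (1 : ℝ) else 0) := (integral_ind F hF1 y y').symm
    _ ≤ _ := by
        refine setIntegral_mono_on ?_ (integrableOn_ff p y y') measurableSet_Ioc fun t _ => ?_
        · refine Measure.integrableOn_of_bounded (M := 1) (by simp) ?_ ?_
          · exact ((measurable_from_nat (f := fun n : ℕ => if n ∈ F then (1 : ℝ) else 0)).comp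
              measurable_NN).aestronglyMeasurable
          · refine Eventually.of_forall fun t => ?_
            split_ifs <;> simp
        · unfold ff
          split_ifs with h1 h2
          · exact le_rfl
          · exact absurd (Finset.mem_filter.1 h1).2 h2
          · norm_num
          · exact le_rfl

end Pool.Agent.H305R2
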