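import Mathlib
import Pool.Agent.H38.LR.S8.H305R2.Window

set_option autoImplicit false

namespace Pool.Agent.H305R2

open Finset Filter Topology MeasureTheory

/-- sum of the reciprocals of the `m` in the window with prime `p`-rough part -/
noncomputable def TT (p : ℕ) (y : ℝ) : ℝ :=
  ∑ m ∈ (Finset.Ioc ⌊Real.exp y⌋₊ ⌊Real.exp (y + 1)⌋₊).filter (fun m => (roughPart p m).Prime),
    1 / (m : ℝ)

lemma RR_le_three {x : ℝ} (hx : 0 < x) : RR x ≤ 3 := by
  unfold RR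
  have he : Real.exp 1 ≤ 3 := by have := Real.exp_one_lt_d9; linarith
  calc ∑ k ∈ Finset.Ioc ⌊x⌋₊ ⌊Real.exp 1 * x⌋₊, (k : ℝ)⁻¹ * pr k ≤
      ∑ k ∈ Finset.Ioc ⌊x⌋₊ ⌊Real.exp 1 * x⌋₊, x⁻¹ := by
        refine Finset.sum_le_sum fun k hk => ?_
        rw [Finset.mem_Ioc, Nat.floor_lt hx.le] at hk
        have h1 : (k : ℝ)⁻¹ ≤ x⁻¹ := inv_anti₀ hx hk.1.le
        have h2 : pr k ≤ 1 := by unfold pr; split_ifs <;> norm_num
        have h3 : 0 ≤ (k : ℝ)⁻¹ := by positivity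
        nlinarith [pr_nonneg k]
    _ = ((⌊Real.exp 1 * x⌋₊ - ⌊x⌋₊ : ℕ) : ℝ) * x⁻¹ := by
        rw [Finset.sum_const, Nat.card_Ioc, nsmul_eq_mul]
    _ ≤ (Real.exp 1 * x) * x⁻¹ := by
        refine mul_le_mul_of_nonneg_right ?_ (by positivity)
        calc ((⌊Real.exp 1 * x⌋₊ - ⌊x⌋₊ : ℕ) : ℝ) ≤ (⌊Real.exp 1 * x⌋₊ : ℝ) := by
              exact_mod_cast Nat.sub_le _ _
          _ ≤ _ := Nat.floor_le (by positivity)
    _ = Real.exp 1 := by field_simp
    _ ≤ 3 := he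

lemma RR_scaled (y : ℝ) (s : ℕ) : RR (Real.exp y / s) =
    ∑ k ∈ Finset.Ioc (⌊Real.exp y⌋₊ / s) (⌊Real.exp (y + 1)⌋₊ / s), (k : ℝ)⁻¹ * pr k := by
  unfold RR
  have e : Real.exp 1 * (Real.exp y / s) = Real.exp (y + 1) / s := by
    rw [Real.exp_add]; ring
  rw [e, Nat.floor_div_natCast, Nat.floor_div_natCast]

lemma TT_eq (p : ℕ) (y : ℝ) : TT p y =
    ∑ s ∈ SMz p (⌊Real.exp (y + 1)⌋₊ : ℝ), (s : ℝ)⁻¹ *
      ∑ q ∈ (Finset.Ioc (⌊Real.exp y⌋₊ / s) (⌊Real.exp (y + 1)⌋₊ / s)).filter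
        (fun q => q.Prime ∧ p < q), (q : ℝ)⁻¹ := by
  unfold TT
  rw [sum_rough_eq]
  refine Finset.sum_congr rfl fun s _ => ?_
  rw [Finset.mul_sum]
  refine Finset.sum_congr rfl fun q _ => ?_
  push_cast
  rw [one_div, mul_inv]

lemma TT_le (p : ℕ) (y : ℝ) : TT p y ≤
    ∑ s ∈ SMz p (⌊Real.exp (y + 1)⌋₊ : ℝ), (s : ℝ)⁻¹ * RR (Real.exp y / s) := by
  rw [TT_eq]
  refine Finset.sum_le_sum fun s _ => mul_le_mul_of_nonneg_left ?_ (by positivity)
  rw [RR_scaled, Finset.sum_filter]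
  refine Finset.sum_le_sum fun k _ => ?_
  unfold pr
  split_ifs with h1 h2 h2
  · simp
  · exact absurd h1.1 h2
  · positivity
  · simp

lemma le_TT {p : ℕ} {y z : ℝ} (hz : 0 < z) (hzy : z * (p + 1) ≤ Real.exp y) :
    ∑ s ∈ SMz p z, (s : ℝ)⁻¹ * RR (Real.exp y / s) ≤ TT p y := by
  rw [TT_eq]
  have hz1 : z ≤ Real.exp y := by
    have : (0 : ℝ) ≤ p := by positivity
    nlinarith
  have hsub : SMz p z ⊆ SMz p (⌊Real.exp (y + 1)⌋₊ : ℝ) := by
    intro s hs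
    rw [mem_SMz hz.le] at hs
    rw [mem_SMz (by positivity)]
    refine ⟨hs.1, ?_⟩
    have h1 : s ≤ ⌊Real.exp (y + 1)⌋₊ := by
      rw [Nat.le_floor_iff (Real.exp_pos _).le]
      exact hs.2.trans (hz1.trans (Real.exp_le_exp.2 (by linarith)))
    exact_mod_cast h1
  refine le_trans ?_ (Finset.sum_le_sum_of_subset_of_nonneg hsub fun s _ _ => by positivity)
  refine Finset.sum_le_sum fun s hs => mul_le_mul_of_nonneg_left ?_ (by positivity)
  rw [mem_SMz hz.le] at hs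
  have hs0 : (0 : ℝ) < s := by exact_mod_cast SM_pos hs.1
  rw [RR_scaled, Finset.sum_filter]
  refine Finset.sum_le_sum fun k hk => ?_
  have hpk : p < k := by
    rw [Finset.mem_Ioc] at hk
    refine lt_of_le_of_lt ?_ hk.1
    rw [← Nat.floor_div_natCast, Nat.le_floor_iff (by positivity), le_div_iff₀ hs0]
    nlinarith [hs.2]
  unfold pr
  split_ifs with h1 h2 h2
  · simp
  · exact absurd ⟨h1, hpk⟩ h2
  · exact absurd h2.1 h1
  · simp

lemma window_le_TT {p : ℕ} {y : ℝ} (hy : 0 ≤ y) :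
    ∫ t in Set.Ioc y (y + 1), ff p t ≤ TT p y + 2 * Real.exp (-y) := by
  have hA : 1 ≤ ⌊Real.exp y⌋₊ := Nat.floor_pos.2 (Real.one_le_exp hy)
  have hA' : Real.exp y / 2 ≤ (⌊Real.exp y⌋₊ : ℝ) := by
    have h1 : (1 : ℝ) ≤ ⌊Real.exp y⌋₊ := by exact_mod_cast hA
    have h2 := Nat.lt_floor_add_one (Real.exp y)
    linarith
  refine (window_upper hy).trans ?_
  unfold TT
  have hAB : ⌊Real.exp y⌋₊ ≤ ⌊Real.exp (y + 1)⌋₊ :=
    Nat.floor_mono (Real.exp_le_exp.2 (by linarith))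
  have h1 : (Finset.Icc ⌊Real.exp y⌋₊ ⌊Real.exp (y + 1)⌋₊) =
      insert ⌊Real.exp y⌋₊ (Finset.Ioc ⌊Real.exp y⌋₊ ⌊Real.exp (y + 1)⌋₊) := by
    ext x
    simp only [Finset.mem_Icc, Finset.mem_insert, Finset.mem_Ioc]
    omega
  rw [h1, Finset.sum_filter, Finset.sum_filter, Finset.sum_insert (by simp)]
  have h2 : (if (roughPart p ⌊Real.exp y⌋₊).Prime then 1 / (⌊Real.exp y⌋₊ : ℝ) else 0) ≤
      2 * Real.exp (-y) := by
    have h3 : 1 / (⌊Real.exp y⌋₊ : ℝ) ≤ 2 * Real.exp (-y) := by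
      calc 1 / (⌊Real.exp y⌋₊ : ℝ) ≤ 1 / (Real.exp y / 2) :=
            one_div_le_one_div_of_le (by positivity) hA'
        _ = 2 * Real.exp (-y) := by rw [Real.exp_neg]; field_simp
    split_ifs
    · exact h3
    · positivity
  linarith

lemma TT_le_window {p : ℕ} {y : ℝ} (hy : 0 ≤ y) :
    TT p y - 4 * Real.exp (-y) ≤ ∫ t in Set.Ioc y (y + 1), ff p t := by
  have hA : 1 ≤ ⌊Real.exp y⌋₊ := Nat.floor_pos.2 (Real.one_le_exp hy)
  have hA' : Real.exp y / 2 ≤ (⌊Real.exp y⌋₊ : ℝ) := by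
    have h1 : (1 : ℝ) ≤ ⌊Real.exp y⌋₊ := by exact_mod_cast hA
    have h2 := Nat.lt_floor_add_one (Real.exp y)
    linarith
  refine le_trans ?_ (window_lower hy)
  unfold TT
  set A := ⌊Real.exp y⌋₊ with hAdef
  set B := ⌊Real.exp (y + 1)⌋₊ with hBdef
  have hAB : A ≤ B := Nat.floor_mono (Real.exp_le_exp.2 (by linarith))
  have hA0 : (0 : ℝ) < A := by exact_mod_cast hA
  have hinv : 1 / (A : ℝ) ≤ 2 * Real.exp (-y) := by
    calc 1 / (A : ℝ) ≤ 1 / (Real.exp y / 2) := one_div_le_one_div_of_le (by positivity) hA'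
      _ = 2 * Real.exp (-y) := by rw [Real.exp_neg]; field_simp
  -- telescoping sum
  have htel : ∀ N : ℕ, A ≤ N → ∑ m ∈ Finset.Ioc A N, (1 / (m : ℝ) - 1 / ((m : ℝ) + 1)) ≤ 1 / (A : ℝ) := by
    intro N hN
    have : ∑ m ∈ Finset.Ioc A N, (1 / (m : ℝ) - 1 / ((m : ℝ) + 1)) = 1 / ((A : ℝ) + 1) - 1 / ((N : ℝ) + 1) := by
      induction N, hN using Nat.le_induction with
      | base => simp
      | succ N hN ih =>
        rw [← Finset.insert_Ioc_right_eq_Ioc_add_one hN, Finset.sum_insert (by simp), ih]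
        push_cast
        ring
    rw [this]
    have h1 : 1 / ((A : ℝ) + 1) ≤ 1 / (A : ℝ) := one_div_le_one_div_of_le hA0 (by linarith)
    have h2 : 0 ≤ 1 / ((N : ℝ) + 1) := by positivity
    linarith
  rcases Nat.lt_or_ge A B with hlt | hge
  · have hB1 : A ≤ B - 1 := by omega
    have hIoc : Finset.Ioc A B = insert B (Finset.Ioc A (B - 1)) := by
      ext x
      simp only [Finset.mem_insert, Finset.mem_Ioc]
      omega
    have hBnot : B ∉ Finset.Ioc A (B - 1) := by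
      simp only [Finset.mem_Ioc]; omega
    rw [hIoc, Finset.sum_filter, Finset.sum_filter, Finset.sum_insert hBnot]
    have h2 : (if (roughPart p B).Prime then 1 / (B : ℝ) else 0) ≤ 1 / (A : ℝ) := by
      have h3 : 1 / (B : ℝ) ≤ 1 / (A : ℝ) := one_div_le_one_div_of_le hA0 (by exact_mod_cast hAB)
      split_ifs
      · exact h3
      · positivity
    have h4 : ∑ m ∈ Finset.Ioc A (B - 1), (if (roughPart p m).Prime then 1 / (m : ℝ) else 0) -
        ∑ m ∈ Finset.Ioc A (B - 1), (if (roughPart p m).Prime then 1 / ((m : ℝ) + 1) else 0) ≤ 1 / (A : ℝ) := by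
      rw [← Finset.sum_sub_distrib]
      refine le_trans (Finset.sum_le_sum fun m hm => ?_) (htel (B - 1) hB1)
      have hm0 : (0 : ℝ) < m := by
        rw [Finset.mem_Ioc] at hm
        exact_mod_cast (by omega : 0 < m)
      have : 1 / ((m : ℝ) + 1) ≤ 1 / (m : ℝ) := one_div_le_one_div_of_le hm0 (by linarith)
      split_ifs
      · exact le_rfl
      · linarith
    linarith
  · have hBA : B = A := le_antisymm hge hAB
    rw [hBA]
    simp only [Finset.Ioc_self, Finset.filter_empty, Finset.sum_empty]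
    have h5 : Finset.Ioc A (A - 1) = ∅ := by
      ext x; simp only [Finset.mem_Ioc, Finset.notMem_empty, iff_false]; omega
    rw [h5]
    simp
    positivity

end Pool.Agent.H305R2
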