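import Mathlib
import Pool.Agent.H38.LR.S8.H305R2.W1b
import Pool.Agent.H38.LR.S8.Helper601.BT

set_option autoImplicit false

namespace Pool.Agent.H305R2

open Finset Filter Topology MeasureTheory

/-- number of primes in `(A'/s, B/s]`, trivial bound and sieve bound -/
lemma count_inner {C0 : ℝ} (hBT : ∀ (a q N : ℕ), 2 ≤ N → (q = 1 ∨ q.Prime) →
    (((Finset.range N).filter (fun k => (a + k * q).Prime)).card : ℝ) ≤ C0 * N / Real.log N)
    (p A B s : ℕ) (hs : 0 < s) (hAB : A ≤ B) :
    ((((Finset.Ioc (A / s) (B / s)).filter (fun q => q.Prime ∧ p < q)).card : ℝ) ≤ (B - A : ℕ) / (s : ℝ) + 1) ∧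
    (2 ≤ (B - A) / s + 1 →
    (((Finset.Ioc (A / s) (B / s)).filter (fun q => q.Prime ∧ p < q)).card : ℝ) ≤
      C0 * (((B - A) / s + 1 : ℕ) : ℝ) / Real.log (((B - A) / s + 1 : ℕ) : ℝ)) := by
  have hdiv : B / s ≤ A / s + ((B - A) / s + 1) := by
    have h1 : B = A + (B - A) := by omega
    conv_lhs => rw [h1]
    rw [Nat.div_le_iff_le_mul_add_pred hs]
    have h2 := Nat.div_add_mod A s
    have h3 := Nat.div_add_mod (B - A) s
    have h4 := Nat.mod_lt A hs
    have h5 := Nat.mod_lt (B - A) hs
    have h6 : s * (A / s + ((B - A) / s + 1)) = s * (A / s) + s * ((B - A) / s) + s := by ring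
    rw [h6]
    omega
  constructor
  · have h1 : (((Finset.Ioc (A / s) (B / s)).filter (fun q => q.Prime ∧ p < q)).card) ≤ (B - A) / s + 1 := by
      refine (Finset.card_filter_le _ _).trans ?_
      rw [Nat.card_Ioc]
      exact Nat.sub_le_iff_le_add'.2 hdiv
    calc (((Finset.Ioc (A / s) (B / s)).filter (fun q => q.Prime ∧ p < q)).card : ℝ) ≤
        (((B - A) / s + 1 : ℕ) : ℝ) := by exact_mod_cast h1
      _ ≤ _ := by
        push_cast
        have := @Nat.cast_div_le ℝ _ _ _ (B - A) s
        linarith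
  · intro h2
    refine le_trans ?_ (hBT (A / s + 1) 1 ((B - A) / s + 1) h2 (Or.inl rfl))
    have hinj : ((Finset.Ioc (A / s) (B / s)).filter (fun q => q.Prime ∧ p < q)) ⊆
        ((Finset.range ((B - A) / s + 1)).filter (fun k => (A / s + 1 + k * 1).Prime)).image
          (fun k => A / s + 1 + k) := by
      intro q hq
      rw [Finset.mem_filter, Finset.mem_Ioc] at hq
      rw [Finset.mem_image]
      refine ⟨q - (A / s + 1), ?_, ?_⟩
      · rw [Finset.mem_filter, Finset.mem_range]
        have : A / s + 1 + (q - (A / s + 1)) * 1 = q := by omega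
        rw [this]
        exact ⟨by omega, hq.2.1⟩
      · omega
    have := (Finset.card_le_card hinj).trans Finset.card_image_le
    exact_mod_cast this

/-- **Short windows**: Brun–Titchmarsh type upper bound. -/
theorem window_short {c c' : ℝ} (hc : 0 < c) (hc' : 0 < c') :
    ∃ K : ℝ, 0 < K ∧ ∀ᶠ p : ℕ in atTop, ∀ y : ℝ, c * p ≤ y → ∀ h : ℝ, c' / p ≤ h → h ≤ 1 →
      ∫ t in Set.Ioc y (y + h), ff p t ≤ K * h * (Real.log p / p) := by
  obtain ⟨C0, hC01, hBT⟩ := Pool.Agent.Helper601.brun_titchmarsh
  set K1 := Real.exp Real.eulerMascheroniConstant + 1 with hK1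
  have hK1pos : 0 < K1 := by positivity
  refine ⟨48 * C0 * K1 / c + 10, by positivity, ?_⟩
  have hV : ∀ᶠ p : ℕ in atTop, VV p / Real.log p < K1 :=
    VV_tendsto.eventually_lt_const (by rw [hK1]; linarith)
  have hZ : ∀ᶠ p : ℕ in atTop, ZZ p ≤ Real.exp (c / 8 * p) := ZZ_le_exp (by positivity)
  have hcast := tendsto_natCast_atTop_atTop (R := ℝ)
  have hdecay : ∀ (k : ℕ) (b e : ℝ), 0 < b → 0 < e → ∀ᶠ p : ℕ in atTop, (p : ℝ) ^ k * Real.exp (-(b * p)) < e := by
    intro k b e hb he
    have h1 := (Real.tendsto_pow_mul_exp_neg_atTop_nhds_zero k).comp (hcast.const_mul_atTop hb)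
    have h2 := h1.const_mul ((b ^ k)⁻¹)
    rw [mul_zero] at h2
    filter_upwards [h2.eventually_lt_const he] with p hp
    refine lt_of_le_of_lt (le_of_eq ?_) hp
    simp only [Function.comp]
    rw [mul_pow]
    field_simp
  filter_upwards [hV, hZ, hdecay 1 (c / 4) c' (by positivity) hc', hdecay 1 (c / 8) 1 (by positivity) one_pos,
    hdecay 2 (c / 4) (c' / 2) (by positivity) (by positivity),
    hdecay 1 c (c' / 2) hc (by positivity),
    eventually_ge_atTop 3] with p hpV hpZ hd1 hd2 hd3 hd4 hp3 y hy h hh hh1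
  have hp3' : (3 : ℝ) ≤ p := by exact_mod_cast hp3
  have hp0 : (0 : ℝ) < p := by linarith
  have hlog : 1 ≤ Real.log p := by
    rw [Real.le_log_iff_exp_le hp0]
    have := Real.exp_one_lt_d9
    linarith
  have hh0 : 0 < h := lt_of_lt_of_le (by positivity) hh
  have hy0 : 0 < y := lt_of_lt_of_le (by positivity) hy
  set X := Real.exp y with hX
  have hX0 : 0 < X := Real.exp_pos _
  have hX1 : 1 ≤ X := Real.one_le_exp hy0.le
  set A := ⌊X⌋₊ with hA
  set B := ⌊Real.exp (y + h)⌋₊ with hB
  have hYe : Real.exp (y + h) = X * Real.exp h := by rw [Real.exp_add]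
  have hA1 : 1 ≤ A := Nat.floor_pos.2 hX1
  have hAle : (A : ℝ) ≤ X := Nat.floor_le hX0.le
  have hAgt : X < A + 1 := Nat.lt_floor_add_one X
  have hA1' : (1 : ℝ) ≤ A := by exact_mod_cast hA1
  have hAhalf : X / 2 ≤ A := by linarith
  have hBle : (B : ℝ) ≤ X * Real.exp h := by rw [← hYe]; exact Nat.floor_le (Real.exp_pos _).le
  have hBgt : X * Real.exp h < B + 1 := by rw [← hYe]; exact Nat.lt_floor_add_one _
  have hAB : A ≤ B := Nat.floor_mono (Real.exp_le_exp.2 (by linarith))
  have heh1 : 1 + h ≤ Real.exp h := by have := Real.add_one_le_exp h; linarith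
  have heh2 : Real.exp h ≤ 1 + 2 * h := by
    have h1 := Real.abs_exp_sub_one_sub_id_le (x := h) (by rw [abs_of_pos hh0]; exact hh1)
    have h2 := (abs_le.1 h1).2
    nlinarith
  -- largeness of X
  have hXp : Real.exp (c * p) ≤ X := Real.exp_le_exp.2 hy
  have hhX : 2 ≤ h * X := by
    have h1 : c' / p * Real.exp (c * p) ≤ h * X := mul_le_mul hh hXp (Real.exp_pos _).le hh0.le
    have h2 : 2 ≤ c' / p * Real.exp (c * p) := by
      rw [pow_one, Real.exp_neg] at hd4
      have h3 : (p : ℝ) < c' / 2 * Real.exp (c * p) := by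
        rw [← div_eq_mul_inv, div_lt_iff₀ (Real.exp_pos _)] at hd4
        exact hd4
      rw [div_mul_eq_mul_div, le_div_iff₀ hp0]
      linarith
    linarith
  set D := B - (A - 1) with hD
  have hDcast : (D : ℝ) = B - A + 1 := by
    have : D = B - A + 1 := by omega
    rw [this]
    push_cast [Nat.cast_sub hAB]
    ring
  have hDup : (D : ℝ) ≤ 3 * (h * X) := by
    rw [hDcast]
    have : X * Real.exp h ≤ X * (1 + 2 * h) := mul_le_mul_of_nonneg_left heh2 hX0.le
    linarith
  have hDlow : h * X ≤ D := by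
    rw [hDcast]
    have : X * (1 + h) ≤ X * Real.exp h := mul_le_mul_of_nonneg_left heh1 hX0.le
    linarith
  have hDpos : (0 : ℝ) < D := by linarith
  -- step 1
  have hstep1 : ∫ t in Set.Ioc y (y + h), ff p t ≤ 1 / (A : ℝ) *
      ∑ m ∈ (Finset.Ioc (A - 1) B).filter (fun m => (roughPart p m).Prime), (1 : ℝ) := by
    refine (window_upper hy0.le).trans ?_
    have hIcc : Finset.Icc A B = Finset.Ioc (A - 1) B := by
      ext x; simp only [Finset.mem_Icc, Finset.mem_Ioc]; omega
    rw [← hX, ← hA, ← hB, hIcc, Finset.mul_sum]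
    refine Finset.sum_le_sum fun m hm => ?_
    rw [Finset.mem_filter, Finset.mem_Ioc] at hm
    rw [mul_one]
    refine one_div_le_one_div_of_le (by linarith) ?_
    have : A ≤ m := by omega
    exact_mod_cast this
  have hstep2 : ∑ m ∈ (Finset.Ioc (A - 1) B).filter (fun m => (roughPart p m).Prime), (1 : ℝ) =
      ∑ s ∈ SMz p (B : ℝ), (((Finset.Ioc ((A - 1) / s) (B / s)).filter (fun q => q.Prime ∧ p < q)).card : ℝ) := by
    rw [sum_rough_eq]
    refine Finset.sum_congr rfl fun s _ => ?_
    simp
  have hAB' : A - 1 ≤ B := by omega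
  set rX := Real.exp (y / 2) with hrX
  have hrX0 : 0 < rX := Real.exp_pos _
  have hrXX : rX * rX = X := by rw [hrX, hX, ← Real.exp_add]; congr 1; ring
  have hstep3 : ∑ s ∈ SMz p (B : ℝ), (((Finset.Ioc ((A - 1) / s) (B / s)).filter (fun q => q.Prime ∧ p < q)).card : ℝ) ≤
      8 * C0 * D / y * VV p + (D * (rX ^ (-(1 / 2) : ℝ) * ZZ p) + (B : ℝ) ^ (1 / 2 : ℝ) * ZZ p) := by
    rw [← Finset.sum_filter_add_sum_filter_not _ (fun s : ℕ => (s : ℝ) ≤ rX)]
    refine add_le_add ?_ ?_
    · calc _ ≤ ∑ s ∈ (SMz p (B : ℝ)).filter (fun s : ℕ => (s : ℝ) ≤ rX), 8 * C0 * D / y * (s : ℝ)⁻¹ := by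
            refine Finset.sum_le_sum fun s hs => ?_
            rw [Finset.mem_filter, mem_SMz (by positivity)] at hs
            have hs0 : (0 : ℝ) < s := by exact_mod_cast SM_pos hs.1.1
            have hsn : 0 < s := SM_pos hs.1.1
            obtain ⟨hc1, hc2⟩ := count_inner hBT p (A - 1) B s hsn hAB'
            rw [← hD] at hc2
            -- D / s is large
            have hDs : Real.exp (y / 4) ≤ (D : ℝ) / s := by
              rw [le_div_iff₀ hs0]
              have h1 : Real.exp (y / 4) * s ≤ Real.exp (y / 4) * rX :=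
                mul_le_mul_of_nonneg_left hs.2 (Real.exp_pos _).le
              have h2 : Real.exp (y / 4) * rX ≤ h * X := by
                have h3 : X = Real.exp (y / 4) * rX * Real.exp (y / 4) := by
                  rw [hX, hrX, ← Real.exp_add, ← Real.exp_add]; congr 1; ring
                have h4 : 1 ≤ h * Real.exp (y / 4) := by
                  have h5 : c' / p * Real.exp (c * p / 4) ≤ h * Real.exp (y / 4) :=
                    mul_le_mul hh (Real.exp_le_exp.2 (by linarith)) (Real.exp_pos _).le hh0.le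
                  have h6 : 1 ≤ c' / p * Real.exp (c * p / 4) := by
                    rw [pow_one, Real.exp_neg] at hd1
                    rw [← div_eq_mul_inv, div_lt_iff₀ (Real.exp_pos _)] at hd1
                    rw [div_mul_eq_mul_div, le_div_iff₀ hp0, one_mul]
                    have : c / 4 * (p : ℝ) = c * p / 4 := by ring
                    rw [this] at hd1
                    exact hd1.le
                  linarith
                calc Real.exp (y / 4) * rX = Real.exp (y / 4) * rX * 1 := by ring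
                  _ ≤ Real.exp (y / 4) * rX * (h * Real.exp (y / 4)) :=
                      mul_le_mul_of_nonneg_left h4 (by positivity)
                  _ = h * (Real.exp (y / 4) * rX * Real.exp (y / 4)) := by ring
                  _ = h * X := by rw [← h3]
              linarith
            have hDs1 : 1 ≤ (D : ℝ) / s := le_trans (Real.one_le_exp (by positivity)) hDs
            have hN1 : 1 ≤ D / s := by
              rw [Nat.one_le_div_iff hsn]
              rw [le_div_iff₀ hs0, one_mul] at hDs1
              exact_mod_cast hDs1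
            have hb := hc2 (by omega)
            have hNge : (D : ℝ) / s ≤ ((D / s + 1 : ℕ) : ℝ) := by
              rw [div_le_iff₀ hs0]
              have : D ≤ (D / s + 1) * s :=
                ((Nat.div_lt_iff_lt_mul hsn).1 (Nat.lt_succ_self _)).le
              exact_mod_cast this
            have hNle : ((D / s + 1 : ℕ) : ℝ) ≤ 2 * ((D : ℝ) / s) := by
              push_cast
              have := @Nat.cast_div_le ℝ _ _ _ D s
              linarith
            have hlN : y / 4 ≤ Real.log ((D / s + 1 : ℕ) : ℝ) := by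
              rw [Real.le_log_iff_exp_le (by positivity)]
              linarith
            refine hb.trans ?_
            calc C0 * ((D / s + 1 : ℕ) : ℝ) / Real.log ((D / s + 1 : ℕ) : ℝ) ≤
                C0 * (2 * ((D : ℝ) / s)) / (y / 4) := by
                  refine div_le_div₀ (by positivity) ?_ (by positivity) hlN
                  exact mul_le_mul_of_nonneg_left hNle (by linarith)
              _ = 8 * C0 * D / y * (s : ℝ)⁻¹ := by field_simp; ring
        _ = 8 * C0 * D / y * ∑ s ∈ (SMz p (B : ℝ)).filter (fun s : ℕ => (s : ℝ) ≤ rX), (s : ℝ)⁻¹ := by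
            rw [Finset.mul_sum]
        _ ≤ _ := by
            refine mul_le_mul_of_nonneg_left (sum_le_VV p _ fun s hs => ?_) (by positivity)
            rw [Finset.mem_filter, mem_SMz (by positivity)] at hs
            exact hs.1.1
    · calc _ ≤ ∑ s ∈ (SMz p (B : ℝ)).filter (fun s : ℕ => ¬ (s : ℝ) ≤ rX), (D * (s : ℝ)⁻¹ + 1) := by
            refine Finset.sum_le_sum fun s hs => ?_
            rw [Finset.mem_filter, mem_SMz (by positivity)] at hs
            obtain ⟨hc1, hc2⟩ := count_inner hBT p (A - 1) B s (SM_pos hs.1.1) hAB'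
            rw [← hD] at hc1
            rw [← div_eq_mul_inv]
            exact hc1
        _ = D * ∑ s ∈ (SMz p (B : ℝ)).filter (fun s : ℕ => ¬ (s : ℝ) ≤ rX), (s : ℝ)⁻¹ +
            (((SMz p (B : ℝ)).filter (fun s : ℕ => ¬ (s : ℝ) ≤ rX)).card : ℝ) := by
            rw [Finset.sum_add_distrib, Finset.mul_sum]
            simp
        _ ≤ _ := by
            refine add_le_add ?_ ?_
            · refine mul_le_mul_of_nonneg_left (tail_le p hrX0 _ fun s hs => ?_) hDpos.le
              rw [Finset.mem_filter, mem_SMz (by positivity)] at hs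
              exact ⟨hs.1.1, (not_le.1 hs.2).le⟩
            · have hB0 : (0 : ℝ) < B := by
                have : 1 ≤ B := hA1.trans hAB
                exact_mod_cast this
              refine card_le p hB0 _ fun s hs => ?_
              rw [Finset.mem_filter, mem_SMz (by positivity)] at hs
              exact hs.1
  -- final assembly
  have hZ0 := ZZ_nonneg p
  have hV0 := VV_nonneg p
  have hrX2 : rX ^ (-(1 / 2) : ℝ) = Real.exp (-(y / 4)) := by
    rw [hrX, ← Real.exp_mul]; congr 1; ring
  have hBrt : (B : ℝ) ^ (1 / 2 : ℝ) ≤ 2 * rX := by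
    have h1 : (B : ℝ) ≤ (2 * rX) ^ 2 := by
      have : X * Real.exp h ≤ X * 4 := by
        refine mul_le_mul_of_nonneg_left ?_ hX0.le
        linarith
      nlinarith
    calc (B : ℝ) ^ (1 / 2 : ℝ) ≤ ((2 * rX) ^ 2) ^ (1 / 2 : ℝ) :=
          Real.rpow_le_rpow (by positivity) h1 (by norm_num)
      _ = 2 * rX := by
          rw [← Real.rpow_natCast, ← Real.rpow_mul (by positivity)]
          norm_num
  have hVle : VV p ≤ K1 * Real.log p := by
    rw [div_lt_iff₀ (by linarith)] at hpV
    exact hpV.le
  have hAinv : 1 / (A : ℝ) ≤ 2 / X := by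
    rw [div_le_div_iff₀ (by linarith) hX0]
    linarith
  have hexp1 : Real.exp (-(y / 4)) * ZZ p ≤ Real.log p / p := by
    have h1 : Real.exp (-(y / 4)) * ZZ p ≤ Real.exp (-(c / 8 * p)) := by
      calc Real.exp (-(y / 4)) * ZZ p ≤ Real.exp (-(y / 4)) * Real.exp (c / 8 * p) :=
            mul_le_mul_of_nonneg_left hpZ (Real.exp_pos _).le
        _ = Real.exp (-(y / 4) + c / 8 * p) := by rw [Real.exp_add]
        _ ≤ _ := Real.exp_le_exp.2 (by linarith)
    rw [pow_one] at hd2
    rw [le_div_iff₀ hp0]
    calc Real.exp (-(y / 4)) * ZZ p * p ≤ Real.exp (-(c / 8 * p)) * p :=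
          mul_le_mul_of_nonneg_right h1 hp0.le
      _ ≤ 1 := by rw [mul_comm]; exact hd2.le
      _ ≤ _ := hlog
  have hexp2 : rX * ZZ p / X ≤ h * (Real.log p / p) / 2 := by
    have h0 : rX * ZZ p / X = Real.exp (-(y / 2)) * ZZ p := by
      rw [← hrXX, Real.exp_neg, ← hrX]
      field_simp
    rw [h0]
    have h1 : Real.exp (-(y / 2)) * ZZ p ≤ Real.exp (-(c / 4 * p)) := by
      calc Real.exp (-(y / 2)) * ZZ p ≤ Real.exp (-(y / 2)) * Real.exp (c / 8 * p) :=
            mul_le_mul_of_nonneg_left hpZ (Real.exp_pos _).le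
        _ = Real.exp (-(y / 2) + c / 8 * p) := by rw [Real.exp_add]
        _ ≤ _ := Real.exp_le_exp.2 (by nlinarith)
    have h2 : Real.exp (-(c / 4 * p)) ≤ c' / p * (1 / p) / 2 := by
      have h3 : c' / p * (1 / p) / 2 = (c' / 2) / (p : ℝ) ^ 2 := by field_simp
      rw [h3, le_div_iff₀ (by positivity), mul_comm]
      exact hd3.le
    have h4 : c' / p * (1 / p) / 2 ≤ h * (Real.log p / p) / 2 := by
      have : c' / p * (1 / p) ≤ h * (Real.log p / p) := by
        refine mul_le_mul hh ?_ (by positivity) hh0.le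
        exact div_le_div_of_nonneg_right hlog hp0.le
      linarith
    linarith
  calc ∫ t in Set.Ioc y (y + h), ff p t ≤ 1 / (A : ℝ) * (8 * C0 * D / y * VV p +
        (D * (rX ^ (-(1 / 2) : ℝ) * ZZ p) + (B : ℝ) ^ (1 / 2 : ℝ) * ZZ p)) := by
        refine hstep1.trans ?_
        rw [hstep2]
        exact mul_le_mul_of_nonneg_left hstep3 (by positivity)
    _ ≤ 2 / X * (8 * C0 * (3 * (h * X)) / (c * p) * (K1 * Real.log p) +
        (3 * (h * X) * (Real.log p / p) + 2 * rX * ZZ p)) := by
        refine mul_le_mul hAinv ?_ (by positivity) (by positivity)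
        refine add_le_add ?_ (add_le_add ?_ ?_)
        · refine mul_le_mul ?_ hVle hV0 (by positivity)
          refine div_le_div₀ (by positivity) ?_ (by positivity) hy
          exact mul_le_mul_of_nonneg_left hDup (by positivity)
        · rw [hrX2]
          exact mul_le_mul hDup hexp1 (by positivity) (by positivity)
        · exact mul_le_mul_of_nonneg_right hBrt hZ0
    _ = (48 * C0 * K1 / c + 6) * h * (Real.log p / p) + 4 * (rX * ZZ p / X) := by
        field_simp
        ring
    _ ≤ (48 * C0 * K1 / c + 6) * h * (Real.log p / p) + 4 * (h * (Real.log p / p) / 2) := by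
        linarith
    _ ≤ (48 * C0 * K1 / c + 10) * h * (Real.log p / p) := by
        have : 0 ≤ h * (Real.log p / p) := by positivity
        nlinarith

end Pool.Agent.H305R2
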