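import Mathlib
import Pool.Agent.H38.LR.S8.H305R2.W2

set_option autoImplicit false

namespace Pool.Agent.H305R2

open Finset Filter Topology MeasureTheory intervalIntegral

/-- local mean of `ff p` -/
noncomputable def LL (p : ℕ) (y : ℝ) : ℝ := ∫ t in Set.Ioc y (y + 1), ff p t

/-- centred version of `ff p` -/
noncomputable def gg (p : ℕ) (y : ℝ) : ℝ := ff p y - LL p y

/-- primitive of `ff p` -/
noncomputable def FF (p : ℕ) (x : ℝ) : ℝ := ∫ t in (0 : ℝ)..x, ff p t

lemma intervalIntegrable_ff (p : ℕ) (a b : ℝ) : IntervalIntegrable (ff p) volume a b :=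
  ⟨integrableOn_ff p a b, integrableOn_ff p b a⟩

lemma FF_sub (p : ℕ) {u v : ℝ} (h : u ≤ v) : FF p v - FF p u = ∫ t in Set.Ioc u v, ff p t := by
  unfold FF
  rw [intervalIntegral.integral_interval_sub_left (intervalIntegrable_ff p 0 v)
    (intervalIntegrable_ff p 0 u), intervalIntegral.integral_of_le h]

lemma FF_mono (p : ℕ) : Monotone (FF p) := by
  intro u v h
  have h1 := FF_sub p h
  have h2 : 0 ≤ ∫ t in Set.Ioc u v, ff p t := setIntegral_nonneg measurableSet_Ioc fun t _ => ff_nonneg p t
  linarith

lemma FF_sub_le (p : ℕ) {u v : ℝ} (h : u ≤ v) : FF p v - FF p u ≤ v - u := by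
  rw [FF_sub p h]
  calc ∫ t in Set.Ioc u v, ff p t ≤ ∫ t in Set.Ioc u v, (1 : ℝ) := by
        refine setIntegral_mono_on (integrableOn_ff p u v) (integrableOn_const (by simp)) measurableSet_Ioc
          fun t _ => ff_le_one p t
    _ = v - u := by
        rw [setIntegral_const, smul_eq_mul, mul_one, Real.volume_real_Ioc_of_le h]

lemma FF_cont (p : ℕ) : Continuous (FF p) :=
  intervalIntegral.continuous_primitive (fun a b => intervalIntegrable_ff p a b) 0

lemma LL_eq (p : ℕ) (y : ℝ) : LL p y = FF p (y + 1) - FF p y := (FF_sub p (by linarith)).symm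

lemma LL_cont (p : ℕ) : Continuous (LL p) := by
  have : LL p = fun y => FF p (y + 1) - FF p y := funext (LL_eq p)
  rw [this]
  exact ((FF_cont p).comp (by fun_prop)).sub (FF_cont p)

lemma LL_nonneg (p : ℕ) (y : ℝ) : 0 ≤ LL p y :=
  setIntegral_nonneg measurableSet_Ioc fun t _ => ff_nonneg p t

lemma LL_le_one (p : ℕ) (y : ℝ) : LL p y ≤ 1 := by
  rw [LL_eq]
  have := FF_sub_le p (show y ≤ y + 1 by linarith)
  linarith

lemma measurable_gg (p : ℕ) : Measurable (gg p) := (measurable_ff p).sub (LL_cont p).measurable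

lemma abs_gg_le_one (p : ℕ) (y : ℝ) : |gg p y| ≤ 1 := by
  unfold gg
  rw [abs_le]
  constructor
  · linarith [ff_nonneg p y, LL_le_one p y]
  · linarith [ff_le_one p y, LL_nonneg p y]

lemma abs_gg_le (p : ℕ) (y : ℝ) : |gg p y| ≤ ff p y + LL p y := by
  unfold gg
  rw [abs_le]
  constructor
  · linarith [ff_nonneg p y, LL_nonneg p y]
  · linarith [LL_nonneg p y]

lemma integrableOn_gg (p : ℕ) (a b : ℝ) : IntegrableOn (gg p) (Set.Ioc a b) := by
  refine Measure.integrableOn_of_bounded (M := 1) (by simp) (measurable_gg p).aestronglyMeasurable ?_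
  exact Eventually.of_forall fun t => by rw [Real.norm_eq_abs]; exact abs_gg_le_one p t

lemma integrableOn_LL (p : ℕ) (a b : ℝ) : IntegrableOn (LL p) (Set.Ioc a b) :=
  ((LL_cont p).integrableOn_Icc).mono_set Set.Ioc_subset_Icc_self

lemma integral_LL (p : ℕ) {u v : ℝ} (h : u ≤ v) : ∫ t in Set.Ioc u v, LL p t =
    (∫ t in v..(v + 1), FF p t) - ∫ t in u..(u + 1), FF p t := by
  have hF : ∀ a b : ℝ, IntervalIntegrable (FF p) volume a b := fun a b => (FF_cont p).intervalIntegrable a b
  have hF1 : ∀ a b : ℝ, IntervalIntegrable (fun t => FF p (t + 1)) volume a b := fun a b =>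
    ((FF_cont p).comp (by fun_prop : Continuous fun t : ℝ => t + 1)).intervalIntegrable a b
  rw [← intervalIntegral.integral_of_le h]
  have e : ∀ t, LL p t = FF p (t + 1) - FF p t := LL_eq p
  simp only [e]
  rw [intervalIntegral.integral_sub (hF1 u v) (hF u v),
    intervalIntegral.integral_comp_add_right (fun t => FF p t) 1]
  have h1 := intervalIntegral.integral_add_adjacent_intervals (hF (u + 1) v) (hF v (v + 1))
  have h2 := intervalIntegral.integral_add_adjacent_intervals (hF u (u + 1)) (hF (u + 1) v)
  linarith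

/-- cancellation: the integral of `gg` over an interval is controlled by its ends -/
lemma abs_integral_gg (p : ℕ) {u v : ℝ} (h : u ≤ v) :
    |∫ t in Set.Ioc u v, gg p t| ≤ LL p u + LL p v := by
  have h1 : ∫ t in Set.Ioc u v, gg p t = (∫ t in Set.Ioc u v, ff p t) - ∫ t in Set.Ioc u v, LL p t :=
    integral_sub (integrableOn_ff p u v) (integrableOn_LL p u v)
  have hF : ∀ a b : ℝ, IntervalIntegrable (FF p) volume a b := fun a b => (FF_cont p).intervalIntegrable a b
  have hlow : ∀ x : ℝ, FF p x ≤ ∫ t in x..(x + 1), FF p t := by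
    intro x
    have := intervalIntegral.integral_mono_on (by linarith : x ≤ x + 1)
      (intervalIntegrable_const (c := FF p x)) (hF x (x + 1)) (fun t ht => FF_mono p ht.1)
    simpa using this
  have hup : ∀ x : ℝ, ∫ t in x..(x + 1), FF p t ≤ FF p (x + 1) := by
    intro x
    have := intervalIntegral.integral_mono_on (by linarith : x ≤ x + 1)
      (hF x (x + 1)) (intervalIntegrable_const (c := FF p (x + 1))) (fun t ht => FF_mono p ht.2)
    simpa using this
  rw [h1, integral_LL p h, ← FF_sub p h]
  have a1 := hlow u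
  have a2 := hup u
  have a3 := hlow v
  have a4 := hup v
  have b1 := LL_eq p u
  have b2 := LL_eq p v
  have b3 := LL_nonneg p u
  have b4 := LL_nonneg p v
  rw [abs_le]
  constructor <;> linarith

/-- mass of `ff` on an interval in terms of the local mean -/
lemma integral_ff_le (p : ℕ) {u v : ℝ} (h : u ≤ v) :
    ∫ t in Set.Ioc u v, ff p t ≤ ∫ t in Set.Ioc (u - 1) v, LL p t := by
  have hF : ∀ a b : ℝ, IntervalIntegrable (FF p) volume a b := fun a b => (FF_cont p).intervalIntegrable a b
  rw [integral_LL p (by linarith : u - 1 ≤ v), ← FF_sub p h]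
  have hlow : FF p v ≤ ∫ t in v..(v + 1), FF p t := by
    have := intervalIntegral.integral_mono_on (by linarith : v ≤ v + 1)
      (intervalIntegrable_const (c := FF p v)) (hF v (v + 1)) (fun t ht => FF_mono p ht.1)
    simpa using this
  have hup : ∫ t in (u - 1)..(u - 1 + 1), FF p t ≤ FF p u := by
    have := intervalIntegral.integral_mono_on (by linarith : u - 1 ≤ u - 1 + 1)
      (hF (u - 1) (u - 1 + 1)) (intervalIntegrable_const (c := FF p u))
      (fun t ht => FF_mono p (by linarith [ht.2]))
    simpa using this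
  linarith

/-- The package of uniform bounds. -/
theorem bounds {c : ℝ} (hc : 0 < c) : ∃ K : ℝ, 0 < K ∧ ∀ᶠ p : ℕ in atTop,
    (∀ y, c * p ≤ y → LL p y ≤ K * (Real.log p / p)) ∧
    (∀ u v, c * p + 1 ≤ u → u ≤ v → ∫ t in Set.Ioc u v, ff p t ≤ K * ((v - u) + 1 / p) * (Real.log p / p)) ∧
    (∀ u v, c * p + 1 ≤ u → u ≤ v → |∫ t in Set.Ioc u v, gg p t| ≤ K * (Real.log p / p)) ∧
    (∀ u v, c * p + 1 ≤ u → u ≤ v →
      ∫ t in Set.Ioc u v, |gg p t| ≤ K * ((v - u) + 1 / p) * (Real.log p / p)) := by
  obtain ⟨K, hK, hev⟩ := window_short hc one_pos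
  refine ⟨4 * K, by positivity, ?_⟩
  filter_upwards [hev, eventually_ge_atTop 3] with p hp hp3
  have hp3' : (3 : ℝ) ≤ p := by exact_mod_cast hp3
  have hp0 : (0 : ℝ) < p := by linarith
  have hlog : 0 < Real.log p := Real.log_pos (by linarith)
  set w := Real.log p / p with hw
  have hw0 : 0 < w := by positivity
  have h1p : 1 / (p : ℝ) ≤ 1 := by rw [div_le_one hp0]; linarith
  have h1p0 : 0 < 1 / (p : ℝ) := by positivity
  have hLL : ∀ y, c * p ≤ y → LL p y ≤ K * w := by
    intro y hy
    have := hp y hy 1 h1p le_rfl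
    rw [mul_one] at this
    exact this
  have hff : ∀ u v, c * p + 1 ≤ u → u ≤ v → ∫ t in Set.Ioc u v, ff p t ≤ 2 * K * ((v - u) + 1 / p) * w := by
    intro u v hu huv
    rcases le_total (v - u) 1 with h | h
    · have h2 := hp u (by linarith) (max (v - u) (1 / p)) (le_max_right _ _) (max_le h h1p)
      have h3 : ∫ t in Set.Ioc u v, ff p t ≤ ∫ t in Set.Ioc u (u + max (v - u) (1 / p)), ff p t := by
        refine setIntegral_mono_set (integrableOn_ff p _ _) ?_ ?_
        · exact Eventually.of_forall fun t => ff_nonneg p t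
        · refine (Set.Ioc_subset_Ioc_right ?_).eventuallyLE
          have := le_max_left (v - u) (1 / (p : ℝ))
          linarith
      have h4 : max (v - u) (1 / (p : ℝ)) ≤ (v - u) + 1 / p := max_le (by linarith) (by linarith)
      calc ∫ t in Set.Ioc u v, ff p t ≤ K * max (v - u) (1 / p) * w := h3.trans h2
        _ ≤ K * ((v - u) + 1 / p) * w := by
            refine mul_le_mul_of_nonneg_right (mul_le_mul_of_nonneg_left h4 hK.le) hw0.le
        _ ≤ 2 * K * ((v - u) + 1 / p) * w := by
            have : 0 ≤ K * ((v - u) + 1 / p) * w := by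
              have : 0 ≤ v - u := by linarith
              positivity
            linarith
    · have h2 := integral_ff_le p huv
      have h3 : ∫ t in Set.Ioc (u - 1) v, LL p t ≤ ∫ t in Set.Ioc (u - 1) v, K * w := by
        refine setIntegral_mono_on (integrableOn_LL p _ _) (integrableOn_const (by simp)) measurableSet_Ioc
          fun t ht => hLL t (by linarith [ht.1])
      rw [setIntegral_const, smul_eq_mul, Real.volume_real_Ioc_of_le (by linarith)] at h3
      calc ∫ t in Set.Ioc u v, ff p t ≤ (v - (u - 1)) * (K * w) := h2.trans h3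
        _ ≤ (2 * ((v - u) + 1 / p)) * (K * w) := by
            refine mul_le_mul_of_nonneg_right ?_ (by positivity)
            linarith
        _ = _ := by ring
  refine ⟨?_, ?_, ?_, ?_⟩
  · intro y hy
    have := hLL y hy
    have : 0 < K * w := by positivity
    linarith [hLL y hy]
  · intro u v hu huv
    refine (hff u v hu huv).trans ?_
    have : 0 ≤ K * ((v - u) + 1 / p) * w := by
      have : 0 ≤ v - u := by linarith
      positivity
    linarith
  · intro u v hu huv
    refine (abs_integral_gg p huv).trans ?_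
    have h1 := hLL u (by linarith)
    have h2 := hLL v (by linarith)
    have : 0 < K * w := by positivity
    linarith
  · intro u v hu huv
    have hint : IntegrableOn (fun t => |gg p t|) (Set.Ioc u v) := (integrableOn_gg p u v).abs
    calc ∫ t in Set.Ioc u v, |gg p t| ≤ ∫ t in Set.Ioc u v, (ff p t + LL p t) := by
          refine setIntegral_mono_on hint ((integrableOn_ff p u v).add (integrableOn_LL p u v))
            measurableSet_Ioc fun t _ => abs_gg_le p t
      _ = (∫ t in Set.Ioc u v, ff p t) + ∫ t in Set.Ioc u v, LL p t :=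
          integral_add (integrableOn_ff p u v) (integrableOn_LL p u v)
      _ ≤ 2 * K * ((v - u) + 1 / p) * w + (v - u) * (K * w) := by
          refine add_le_add (hff u v hu huv) ?_
          have h3 : ∫ t in Set.Ioc u v, LL p t ≤ ∫ t in Set.Ioc u v, K * w := by
            refine setIntegral_mono_on (integrableOn_LL p _ _) (integrableOn_const (by simp)) measurableSet_Ioc
              fun t ht => hLL t (by linarith [ht.1])
          rw [setIntegral_const, smul_eq_mul, Real.volume_real_Ioc_of_le huv] at h3
          exact h3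
      _ ≤ 4 * K * ((v - u) + 1 / p) * w := by
          have h0 : 0 ≤ v - u := by linarith
          have h4 : 0 ≤ K * w * (v - u) := by positivity
          have h5 : 0 ≤ K * w * (1 / p) := by positivity
          nlinarith

end Pool.Agent.H305R2
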