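import Mathlib
import Pool.Agent.H38.LR.S8.H305R2.Mean

set_option autoImplicit false

namespace Pool.Agent.H305R2

open Finset Filter Topology MeasureTheory

/-- product of two centred functions in the rectangle coordinates -/
noncomputable def pk (p q : ℕ) (a b : ℝ) : ℝ := gg p (a * p + b) * gg q (a * q + b)

lemma measurable_pk (p q : ℕ) : Measurable (Function.uncurry (pk p q)) := by
  unfold pk Function.uncurry
  refine Measurable.mul ?_ ?_
  · exact (measurable_gg p).comp (by fun_prop)
  · exact (measurable_gg q).comp (by fun_prop)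

lemma abs_pk_le_one (p q : ℕ) (a b : ℝ) : |pk p q a b| ≤ 1 := by
  unfold pk
  rw [abs_mul]
  exact mul_le_one₀ (abs_gg_le_one _ _) (abs_nonneg _) (abs_gg_le_one _ _)

lemma shear_inner (p q : ℕ) (hp : 0 < p) (a0 a1 b0 b1 : ℝ) {a : ℝ} (ha : a ∈ Set.Ioc a0 a1) :
    ∫ b in Set.Ico b0 b1, pk p q a b =
      ∫ y in Set.Ico (a0 * p + b0) (a1 * p + b1),
        (Set.Ioc ((y - b1) / p) ((y - b0) / p)).indicator
          (fun a => gg p y * gg q (y + ((q : ℝ) - p) * a)) a := by
  have hp' : (0 : ℝ) < p := by exact_mod_cast hp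
  rw [← integral_indicator measurableSet_Ico]
  rw [← integral_sub_right_eq_self (fun b => (Set.Ico b0 b1).indicator (pk p q a) b) (a * p)]
  rw [setIntegral_eq_integral_of_forall_compl_eq_zero]
  · refine integral_congr_ae (Eventually.of_forall fun y => ?_)
    simp only
    by_cases h : y - a * p ∈ Set.Ico b0 b1
    · have h2 : a ∈ Set.Ioc ((y - b1) / p) ((y - b0) / p) := by
        constructor
        · rw [div_lt_iff₀ hp']; linarith [h.2]
        · rw [le_div_iff₀ hp']; linarith [h.1]
      rw [Set.indicator_of_mem h, Set.indicator_of_mem h2]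
      unfold pk
      congr 2 <;> ring
    · have h2 : a ∉ Set.Ioc ((y - b1) / p) ((y - b0) / p) := by
        rintro ⟨h3, h4⟩
        rw [div_lt_iff₀ hp'] at h3
        rw [le_div_iff₀ hp'] at h4
        exact h ⟨by linarith, by linarith⟩
      rw [Set.indicator_of_notMem h, Set.indicator_of_notMem h2]
  · intro y hy
    rw [Set.indicator_of_notMem]
    rintro ⟨h3, h4⟩
    rw [div_lt_iff₀ hp'] at h3
    rw [le_div_iff₀ hp'] at h4
    apply hy
    constructor
    · have : a0 * p ≤ a * p := by
        have := ha.1.le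
        gcongr
      linarith
    · have : a * p ≤ a1 * p := by
        have := ha.2
        gcongr
      linarith

lemma rect_swap (p q : ℕ) (hp : 0 < p) (a0 a1 b0 b1 : ℝ) :
    ∫ a in Set.Ioc a0 a1, ∫ b in Set.Ico b0 b1, pk p q a b =
    ∫ y in Set.Ico (a0 * p + b0) (a1 * p + b1), gg p y *
      ∫ a in Set.Ioc (max a0 ((y - b1) / p)) (min a1 ((y - b0) / p)), gg q (y + ((q : ℝ) - p) * a) := by
  have hp' : (0 : ℝ) < p := by exact_mod_cast hp
  rw [setIntegral_congr_fun measurableSet_Ioc (fun a ha => shear_inner p q hp a0 a1 b0 b1 ha)]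
  rw [integral_integral_swap]
  · refine setIntegral_congr_fun measurableSet_Ico fun y _ => ?_
    rw [setIntegral_indicator measurableSet_Ioc, Set.Ioc_inter_Ioc, integral_const_mul]
  · have : IsFiniteMeasure (volume.restrict (Set.Ioc a0 a1)) := ⟨by simp⟩
    have : IsFiniteMeasure (volume.restrict (Set.Ico (a0 * (p : ℝ) + b0) (a1 * p + b1))) := ⟨by simp⟩
    refine Integrable.of_bound (Measurable.aestronglyMeasurable ?_) 1 (Eventually.of_forall ?_)
    · have e : (Function.uncurry fun (a y : ℝ) => (Set.Ioc ((y - b1) / p) ((y - b0) / p)).indicator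
          (fun a => gg p y * gg q (y + ((q : ℝ) - p) * a)) a) =
          Set.indicator {z : ℝ × ℝ | (z.2 - b1) / p < z.1 ∧ z.1 ≤ (z.2 - b0) / p}
            (fun z => gg p z.2 * gg q (z.2 + ((q : ℝ) - p) * z.1)) := by
        funext z
        rcases z with ⟨a, y⟩
        by_cases h : (y - b1) / p < a ∧ a ≤ (y - b0) / p
        · rw [Set.indicator_of_mem (show (a, y) ∈ {z : ℝ × ℝ | (z.2 - b1) / p < z.1 ∧ z.1 ≤ (z.2 - b0) / p} from h)]
          simp only [Function.uncurry]
          rw [Set.indicator_of_mem (show a ∈ Set.Ioc ((y - b1) / p) ((y - b0) / p) from h)]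
        · rw [Set.indicator_of_notMem (show (a, y) ∉ {z : ℝ × ℝ | (z.2 - b1) / p < z.1 ∧ z.1 ≤ (z.2 - b0) / p} from h)]
          simp only [Function.uncurry]
          rw [Set.indicator_of_notMem (show a ∉ Set.Ioc ((y - b1) / p) ((y - b0) / p) from h)]
      rw [e]
      refine Measurable.indicator ?_ ?_
      · refine Measurable.mul ?_ ?_
        · exact (measurable_gg p).comp (by fun_prop)
        · exact (measurable_gg q).comp (by fun_prop)
      · have m1 : MeasurableSet {z : ℝ × ℝ | (z.2 - b1) / p < z.1} :=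
          measurableSet_lt (by fun_prop) (by fun_prop)
        have m2 : MeasurableSet {z : ℝ × ℝ | z.1 ≤ (z.2 - b0) / p} :=
          measurableSet_le (by fun_prop) (by fun_prop)
        exact m1.inter m2
    · rintro ⟨a, y⟩
      simp only [Function.uncurry]
      refine (norm_indicator_le_norm_self _ _).trans ?_
      rw [Real.norm_eq_abs, abs_mul]
      exact mul_le_one₀ (abs_gg_le_one _ _) (abs_nonneg _) (abs_gg_le_one _ _)

end Pool.Agent.H305R2
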