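import Mathlib
import Pool.Agent.H38.LR.S8.H305R2.Second3

set_option autoImplicit false

namespace Pool.Agent.H305R2

open Finset Filter Topology MeasureTheory

/-- squares with summable integrals tend to zero almost everywhere -/
lemma ae_tendsto_zero {α : Type*} [MeasurableSpace α] {μ : Measure α} (f : ℕ → α → ℝ)
    (hm : ∀ k, Measurable (f k)) (hi : ∀ k, Integrable (fun x => (f k x) ^ 2) μ)
    (hs : Summable fun k => ∫ x, (f k x) ^ 2 ∂μ) :
    ∀ᵐ x ∂μ, Tendsto (fun k => f k x) atTop (𝓝 0) := by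
  have h1 : ∫⁻ x, ∑' k, ENNReal.ofReal ((f k x) ^ 2) ∂μ = ∑' k, ∫⁻ x, ENNReal.ofReal ((f k x) ^ 2) ∂μ :=
    lintegral_tsum fun k => ((hm k).pow_const 2).ennreal_ofReal.aemeasurable
  have h2 : ∀ k, ∫⁻ x, ENNReal.ofReal ((f k x) ^ 2) ∂μ = ENNReal.ofReal (∫ x, (f k x) ^ 2 ∂μ) := fun k =>
    (ofReal_integral_eq_lintegral_ofReal (hi k) (Eventually.of_forall fun x => sq_nonneg _)).symm
  simp only [h2] at h1
  have h3 : ∑' k, ENNReal.ofReal (∫ x, (f k x) ^ 2 ∂μ) ≠ ⊤ := by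
    rw [← ENNReal.ofReal_tsum_of_nonneg (fun k => integral_nonneg fun x => sq_nonneg _) hs]
    exact ENNReal.ofReal_ne_top
  have h4 : ∀ᵐ x ∂μ, ∑' k, ENNReal.ofReal ((f k x) ^ 2) < ⊤ := by
    refine ae_lt_top (Measurable.tsum fun k => ((hm k).pow_const 2).ennreal_ofReal) ?_
    rw [h1]; exact h3
  filter_upwards [h4] with x hx
  have h5 := ENNReal.tendsto_atTop_zero_of_tsum_ne_top hx.ne
  have h6 : Tendsto (fun k => (f k x) ^ 2) atTop (𝓝 0) := by
    have h7 := (ENNReal.tendsto_toReal ENNReal.zero_ne_top).comp h5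
    simp only [ENNReal.toReal_zero] at h7
    refine h7.congr fun k => ?_
    simp only [Function.comp]
    exact ENNReal.toReal_ofReal (sq_nonneg _)
  have h8 : Tendsto (fun k => √((f k x) ^ 2)) atTop (𝓝 (√0)) := (Real.continuous_sqrt.tendsto 0).comp h6
  rw [Real.sqrt_zero] at h8
  have h9 : Tendsto (fun k => |f k x|) atTop (𝓝 0) := h8.congr fun k => Real.sqrt_sq_eq_abs _
  exact (tendsto_zero_iff_abs_tendsto_zero _).mpr h9

/-- sampling points -/
noncomputable def smp (m : ℕ) : ℕ := ⌊Real.exp (m : ℝ)⌋₊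

lemma one_le_smp (m : ℕ) : 1 ≤ smp m := by
  unfold smp
  refine Nat.le_floor ?_
  rw [Nat.cast_one]
  exact Real.one_le_exp (Nat.cast_nonneg m)

lemma smp_mono : Monotone smp := by
  intro m n h
  unfold smp
  refine Nat.floor_le_floor ?_
  exact Real.exp_le_exp.mpr (by exact_mod_cast h)

lemma log_smp_le (m : ℕ) : Real.log (smp m) ≤ m := by
  have h0 : (0 : ℝ) < smp m := by exact_mod_cast one_le_smp m
  rw [Real.log_le_iff_le_exp h0]
  exact Nat.floor_le (Real.exp_pos _).le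

lemma log_smp_ge (m : ℕ) : (m : ℝ) - 1 ≤ Real.log (smp m) := by
  have h0 : (0 : ℝ) < smp m := by exact_mod_cast one_le_smp m
  rw [Real.le_log_iff_exp_le h0]
  have h1 : Real.exp (m : ℝ) < smp m + 1 := Nat.lt_floor_add_one _
  have h2 : (1 : ℝ) ≤ smp m := by exact_mod_cast one_le_smp m
  have h3 : Real.exp ((m : ℝ) - 1) = Real.exp m / Real.exp 1 := Real.exp_sub _ _
  rw [h3, div_le_iff₀ (Real.exp_pos 1)]
  have h4 : (2 : ℝ) ≤ Real.exp 1 := by linarith [Real.add_one_le_exp (1 : ℝ)]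
  nlinarith

lemma tendsto_smp : Tendsto smp atTop atTop := by
  unfold smp
  exact tendsto_nat_floor_atTop.comp (Real.tendsto_exp_atTop.comp tendsto_natCast_atTop_atTop)

/-- log of the sampling points -/
lemma log_smp_div : Tendsto (fun m : ℕ => Real.log (smp m) / m) atTop (𝓝 1) := by
  have h1 : Tendsto (fun m : ℕ => 1 - 1 / (m : ℝ)) atTop (𝓝 1) := by
    have := (tendsto_one_div_atTop_nhds_zero_nat (𝕜 := ℝ)).const_sub 1
    simpa using this
  refine tendsto_of_tendsto_of_tendsto_of_le_of_le' h1 tendsto_const_nhds ?_ ?_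
  · filter_upwards [eventually_ge_atTop 1] with m hm
    have hm0 : (0 : ℝ) < m := by exact_mod_cast hm
    rw [le_div_iff₀ hm0]
    have := log_smp_ge m
    field_simp
    linarith
  · filter_upwards [eventually_ge_atTop 1] with m hm
    have hm0 : (0 : ℝ) < m := by exact_mod_cast hm
    rw [div_le_one hm0]
    exact log_smp_le m

/-- centred sum -/
noncomputable def SS (P0 n : ℕ) (z : ℝ × ℝ) : ℝ :=
  ∑ p ∈ (Finset.Icc P0 n).filter Nat.Prime, gg p (z.1 * p + z.2)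

lemma measurable_SS (P0 n : ℕ) : Measurable (SS P0 n) := by
  unfold SS
  refine Finset.measurable_fun_sum _ fun p _ => ?_
  exact (measurable_gg p).comp (by fun_prop)

lemma abs_SS_le (P0 n : ℕ) (z : ℝ × ℝ) : |SS P0 n z| ≤ n + 1 := by
  unfold SS
  refine (Finset.abs_sum_le_sum_abs _ _).trans ?_
  calc ∑ p ∈ (Finset.Icc P0 n).filter Nat.Prime, |gg p (z.1 * p + z.2)|
      ≤ ∑ p ∈ (Finset.Icc P0 n).filter Nat.Prime, (1 : ℝ) :=
        Finset.sum_le_sum fun p _ => abs_gg_le_one _ _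
    _ ≤ ∑ p ∈ Finset.range (n + 1), (1 : ℝ) := by
        refine Finset.sum_le_sum_of_subset_of_nonneg ?_ fun _ _ _ => zero_le_one
        intro p hp
        have := Finset.mem_Icc.mp (Finset.mem_filter.mp hp).1
        exact Finset.mem_range.mpr (by omega)
    _ = n + 1 := by simp

theorem ae_SS (a0 a1 b0 b1 : ℝ) (ha0 : 0 < a0) (ha : a0 ≤ a1) (hb : b0 ≤ b1) :
    ∃ P0 : ℕ, 3 ≤ P0 ∧ ∀ᵐ z ∂(volume.restrict (Set.Ioc a0 a1 ×ˢ Set.Ico b0 b1)),
      Tendsto (fun k : ℕ => SS P0 (smp (k ^ 2)) z / ((k : ℝ) ^ 2)) atTop (𝓝 0) := by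
  obtain ⟨C, P0, hC, hP0, hmom⟩ := second_moment a0 a1 b0 b1 ha0 ha hb
  refine ⟨P0, hP0, ?_⟩
  set R := Set.Ioc a0 a1 ×ˢ Set.Ico b0 b1 with hR
  have hvol : volume R < ⊤ := by
    rw [hR, Measure.volume_eq_prod, Measure.prod_prod]
    simp [Real.volume_Ioc, Real.volume_Ico, ENNReal.mul_lt_top]
  have hfin : IsFiniteMeasure (volume.restrict R) := ⟨by simpa using hvol⟩
  have key : ∀ᵐ z ∂(volume.restrict R),
      Tendsto (fun k : ℕ => (fun (k : ℕ) (z : ℝ × ℝ) => SS P0 (smp ((k + 1) ^ 2)) z / (((k + 1 : ℕ) : ℝ) ^ 2)) k z)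
        atTop (𝓝 0) := by
    refine ae_tendsto_zero _ (fun k => (measurable_SS _ _).div_const _) (fun k => ?_) ?_
    · refine Integrable.of_bound (((measurable_SS _ _).div_const _).pow_const 2).aestronglyMeasurable
        ((((smp ((k + 1) ^ 2) : ℕ) : ℝ) + 1) ^ 2) (Eventually.of_forall fun z => ?_)
      rw [Real.norm_eq_abs, abs_pow, abs_div]
      refine pow_le_pow_left₀ (by positivity) ?_ 2
      have h1 := abs_SS_le P0 (smp ((k + 1) ^ 2)) z
      have h2 : (1 : ℝ) ≤ |(((k + 1 : ℕ) : ℝ) ^ 2)| := by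
        rw [abs_of_nonneg (by positivity)]
        push_cast
        nlinarith [Nat.cast_nonneg (α := ℝ) k]
      exact (div_le_self (abs_nonneg _) h2).trans h1
    · have hb1 : ∀ k : ℕ, ∫ z, (SS P0 (smp ((k + 1) ^ 2)) z / (((k + 1 : ℕ) : ℝ) ^ 2)) ^ 2 ∂(volume.restrict R) ≤
          2 * C * (1 / (((k + 1 : ℕ) : ℝ) ^ 2)) := by
        intro k
        have e1 : ∀ z, (SS P0 (smp ((k + 1) ^ 2)) z / (((k + 1 : ℕ) : ℝ) ^ 2)) ^ 2 =
            (SS P0 (smp ((k + 1) ^ 2)) z) ^ 2 * (1 / (((k + 1 : ℕ) : ℝ) ^ 4)) := by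
          intro z
          have : (((k + 1 : ℕ) : ℝ)) ≠ 0 := by positivity
          field_simp
        simp only [e1]
        rw [integral_mul_const]
        have h1 := hmom (smp ((k + 1) ^ 2)) (one_le_smp _)
        have h2 := log_smp_le ((k + 1) ^ 2)
        have h3 : ∫ z in R, (SS P0 (smp ((k + 1) ^ 2)) z) ^ 2 ≤ C * (Real.log (smp ((k + 1) ^ 2)) + 1) := h1
        have hk0 : (1 : ℝ) ≤ ((k + 1 : ℕ) : ℝ) := by push_cast; linarith [Nat.cast_nonneg (α := ℝ) k]
        have hk2 : (1 : ℝ) ≤ ((k + 1 : ℕ) : ℝ) ^ 2 := by nlinarith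
        have h2' : Real.log (smp ((k + 1) ^ 2)) ≤ ((k + 1 : ℕ) : ℝ) ^ 2 := by
          refine h2.trans ?_
          push_cast
          exact le_rfl
        calc (∫ z in R, (SS P0 (smp ((k + 1) ^ 2)) z) ^ 2) * (1 / (((k + 1 : ℕ) : ℝ) ^ 4))
            ≤ (C * (2 * (((k + 1 : ℕ) : ℝ) ^ 2))) * (1 / (((k + 1 : ℕ) : ℝ) ^ 4)) := by
              refine mul_le_mul_of_nonneg_right (h3.trans ?_) (by positivity)
              refine mul_le_mul_of_nonneg_left ?_ hC.le
              linarith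
          _ = 2 * C * (1 / (((k + 1 : ℕ) : ℝ) ^ 2)) := by
              field_simp
      refine Summable.of_nonneg_of_le (fun k => integral_nonneg fun z => sq_nonneg _) hb1 ?_
      refine Summable.mul_left _ ?_
      have h2 : Summable (fun n : ℕ => 1 / (n : ℝ) ^ 2) := Real.summable_one_div_nat_pow.mpr one_lt_two
      exact (summable_nat_add_iff (f := fun n : ℕ => 1 / (n : ℝ) ^ 2) 1).mpr h2
  filter_upwards [key] with z hz
  exact (tendsto_add_atTop_iff_nat (f := fun k : ℕ => SS P0 (smp (k ^ 2)) z / ((k : ℝ) ^ 2)) 1).mp hz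

end Pool.Agent.H305R2
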